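import Mathlib

/-!
# TAGBR (helper33): exchanging ends along a bipartite graph
-/

namespace Pool.Agent.Lib.MP_eee7a8_ag.TB.C33

/-- Walks of length `n`. -/
def Walk {X : Type*} (E : X → X → Prop) : ℕ → X → X → Prop
  | 0, x, y => x = y
  | n + 1, x, y => ∃ z, E x z ∧ Walk E n z y

theorem Walk.trans {X : Type*} {E : X → X → Prop} : ∀ {m n : ℕ} {x y z : X}, Walk E m x y →
    Walk E n y z → Walk E (m + n) x z
  | 0, n, x, y, z, h1, h2 => by
    rw [Nat.zero_add]
    have : x = y := h1
    rw [this]; exact h2
  | m + 1, n, x, y, z, ⟨w, h0, h1⟩, h2 => by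
    rw [Nat.add_right_comm]
    exact ⟨w, h0, h1.trans h2⟩

theorem Walk.symm {X : Type*} {E : X → X → Prop} (hs : ∀ x y, E x y → E y x) :
    ∀ {m : ℕ} {x y : X}, Walk E m x y → Walk E m y x
  | 0, x, y, h => by
    have : x = y := h
    exact this.symm
  | m + 1, x, y, ⟨z, h0, h1⟩ =>
    (Walk.symm hs h1).trans (show Walk E 1 z x from ⟨x, hs _ _ h0, rfl⟩)

theorem exists_walk {X : Type*} {E : X → X → Prop} (hs : ∀ x y, E x y → E y x) {x y : X}
    (h : Relation.EqvGen E x y) : ∃ n, Walk E n x y := by
  induction h with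
  | rel x y h => exact ⟨1, y, h, rfl⟩
  | refl x => exact ⟨0, rfl⟩
  | symm x y _ ih =>
    obtain ⟨n, hn⟩ := ih
    exact ⟨n, hn.symm hs⟩
  | trans x y z _ _ ih1 ih2 =>
    obtain ⟨m, hm⟩ := ih1
    obtain ⟨n, hn⟩ := ih2
    exact ⟨m + n, hm.trans hn⟩

theorem walk_type {X : Type*} {E : X → X → Prop} {A B : X → Prop}
    (hE : ∀ x y, E x y → (A x ∧ B y) ∨ (B x ∧ A y)) (hAB : ∀ x, A x → ¬ B x) :
    ∀ (n : ℕ) (x y : X), Walk E n x y →
      (A x → (Even n → A y) ∧ (Odd n → B y)) ∧ (B x → (Even n → B y) ∧ (Odd n → A y))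
  | 0, x, y, h => by
    have : x = y := h
    subst this
    refine ⟨fun h => ⟨fun _ => h, fun h' => ?_⟩, fun h => ⟨fun _ => h, fun h' => ?_⟩⟩ <;>
      simp at h'
  | n + 1, x, y, ⟨z, h0, h1⟩ => by
    have ih := walk_type hE hAB n z y h1
    constructor
    · intro hx
      have hz : B z := by
        rcases hE _ _ h0 with h | h
        · exact h.2
        · exact absurd h.1 (hAB x hx)
      obtain ⟨i1, i2⟩ := ih.2 hz
      exact ⟨fun h => i2 (by rw [Nat.even_add_one, Nat.not_even_iff_odd] at h; exact h),
        fun h => i1 (by rw [Nat.odd_add_one, Nat.not_odd_iff_even] at h; exact h)⟩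
    · intro hx
      have hz : A z := by
        rcases hE _ _ h0 with h | h
        · exact absurd hx (hAB x h.1)
        · exact h.2
      obtain ⟨i1, i2⟩ := ih.1 hz
      exact ⟨fun h => i2 (by rw [Nat.even_add_one, Nat.not_even_iff_odd] at h; exact h),
        fun h => i1 (by rw [Nat.odd_add_one, Nat.not_odd_iff_even] at h; exact h)⟩

open Classical in
/-- Number of ends of type `A`. -/
noncomputable def cnt {J X : Type*} [Fintype J] (A : X → Prop) (c : J → X) : ℕ :=
  ∑ j, if A (c j) then 1 else 0

section

variable {J X : Type*} [Fintype J] [DecidableEq J] {E : X → X → Prop} {A B : X → Prop}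

/-- The second kind of step: all ends which move are of type `A`. -/
theorem comb_step (hE : ∀ x y, E x y → (A x ∧ B y) ∨ (B x ∧ A y)) (hs : ∀ x y, E x y → E y x)
    (hAB : ∀ x, A x → ¬ B x) (hdeg : ∀ x, B x → ∃ y, E x y)
    (R : (J → X) → (J → X) → Prop) (htrans : ∀ a b c, R a b → R b c → R a c)
    (hex : ∀ (c : J → X) (j j' : J) (x' y' : X), j ≠ j' → A (c j) → B (c j') → E (c j) x' →
      E (c j') y' → R c (Function.update (Function.update c j x') j' y'))
    (c c₁ : J → X) (l : J → ℕ) (hw : ∀ j, Walk E (l j) (c j) (c₁ j))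
    (hcB : cnt B c = cnt B c₁) (hB : ∃ j, B (c₁ j)) (hall : ∀ j, 0 < l j → A (c j))
    (j₀ : J) (hj₀ : 0 < l j₀) :
    ∃ (c' : J → X) (l' : J → ℕ), R c c' ∧ (∀ j, Walk E (l' j) (c' j) (c₁ j)) ∧
      ∑ j, l' j < ∑ j, l j ∧ (∀ j, A (c' j) ↔ A (c j)) ∧ (∀ j, B (c' j) ↔ B (c j)) := by
  classical
  have hBB : ∀ j, B (c j) → B (c₁ j) := by
    intro j hj
    have h0 : l j = 0 := by
      by_contra hn
      exact hAB _ (hall j (Nat.pos_of_ne_zero hn)) hj
    have := hw j
    rw [h0] at this
    have h1 : c j = c₁ j := this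
    rw [← h1]; exact hj
  have hBB' : ∀ j, B (c₁ j) → B (c j) := by
    unfold cnt at hcB
    have h1 : ∀ j ∈ Finset.univ, (if B (c j) then 1 else 0) ≤ (if B (c₁ j) then 1 else 0) := by
      intro j _
      by_cases h : B (c j)
      · rw [if_pos h, if_pos (hBB j h)]
      · rw [if_neg h]; exact Nat.zero_le _
    have h2 := (Finset.sum_eq_sum_iff_of_le h1).1 hcB
    intro j hj
    have := h2 j (Finset.mem_univ j)
    rw [if_pos hj] at this
    by_contra hn
    rw [if_neg hn] at this
    exact absurd this (by norm_num)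
  have hA0 := hall j₀ hj₀
  have heven : Even (l j₀) := by
    by_contra hn
    rw [Nat.not_even_iff_odd] at hn
    have := ((walk_type hE hAB _ _ _ (hw j₀)).1 hA0).2 hn
    exact hAB _ hA0 (hBB' _ this)
  obtain ⟨m, hm⟩ : ∃ m, l j₀ = m + 2 := by
    obtain ⟨k, hk⟩ := heven
    exact ⟨k + k - 2, by omega⟩
  have hw0 := hw j₀
  rw [hm] at hw0
  obtain ⟨z, hz0, z₂, hz1, hz2⟩ := hw0
  obtain ⟨j', hj'⟩ := hB
  have hj'' := hBB' _ hj'
  have hne : j₀ ≠ j' := by
    rintro rfl; exact hAB _ hA0 hj''
  obtain ⟨q, hq⟩ := hdeg _ hj''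
  have hzB : B z := by
    rcases hE _ _ hz0 with h | h
    · exact h.2
    · exact absurd h.1 (hAB _ hA0)
  have hqA : A q := by
    rcases hE _ _ hq with h | h
    · exact absurd hj'' (hAB _ h.1)
    · exact h.2
  have hz2A : A z₂ := by
    rcases hE _ _ hz1 with h | h
    · exact absurd hzB (hAB _ h.1)
    · exact h.2
  have s1 := hex c j₀ j' z q hne hA0 hj'' hz0 hq
  set c' := Function.update (Function.update c j₀ z) j' q with hc'
  have e1 : c' j' = q := by rw [hc', Function.update_self]
  have e2 : c' j₀ = z := by rw [hc', Function.update_of_ne hne, Function.update_self]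
  have s2 := hex c' j' j₀ (c j') z₂ hne.symm (by rw [e1]; exact hqA) (by rw [e2]; exact hzB)
    (by rw [e1]; exact hs _ _ hq) (by rw [e2]; exact hz1)
  have e3 : Function.update (Function.update c' j' (c j')) j₀ z₂ = Function.update c j₀ z₂ := by
    funext i
    by_cases hi : i = j₀
    · subst hi; rw [Function.update_self, Function.update_self]
    · rw [Function.update_of_ne hi, Function.update_of_ne hi]
      by_cases hi' : i = j'
      · subst hi'; rw [Function.update_self]
      · rw [Function.update_of_ne hi', hc', Function.update_of_ne hi', Function.update_of_ne hi]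
  rw [e3] at s2
  refine ⟨Function.update c j₀ z₂, Function.update l j₀ m, htrans _ _ _ s1 s2, ?_, ?_, ?_, ?_⟩
  · intro j
    by_cases hj : j = j₀
    · subst hj; rw [Function.update_self, Function.update_self]; exact hz2
    · rw [Function.update_of_ne hj, Function.update_of_ne hj]; exact hw j
  · apply Finset.sum_lt_sum
    · intro j _
      by_cases hj : j = j₀
      · subst hj; rw [Function.update_self]; omega
      · rw [Function.update_of_ne hj]
    · exact ⟨j₀, Finset.mem_univ _, by rw [Function.update_self]; omega⟩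
  · intro j
    by_cases hj : j = j₀
    · subst hj; rw [Function.update_self]; exact ⟨fun _ => hA0, fun _ => hz2A⟩
    · rw [Function.update_of_ne hj]
  · intro j
    by_cases hj : j = j₀
    · subst hj; rw [Function.update_self]
      exact ⟨fun h => absurd h (hAB _ hz2A), fun h => absurd h (hAB _ hA0)⟩
    · rw [Function.update_of_ne hj]

omit [DecidableEq J] in
theorem cnt_congr {c c' : J → X} (h : ∀ j, A (c' j) ↔ A (c j)) : cnt A c' = cnt A c := by
  unfold cnt
  apply Finset.sum_congr rfl
  intro j _
  by_cases hh : A (c j)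
  · rw [if_pos hh, if_pos ((h j).2 hh)]
  · rw [if_neg hh, if_neg (fun h' => hh ((h j).1 h'))]

/-- Exchanges connect configurations with the same numbers of ends of the two types. -/
theorem comb (hE : ∀ x y, E x y → (A x ∧ B y) ∨ (B x ∧ A y)) (hs : ∀ x y, E x y → E y x)
    (hAB : ∀ x, A x → ¬ B x) (hdegA : ∀ x, A x → ∃ y, E x y) (hdegB : ∀ x, B x → ∃ y, E x y)
    (R : (J → X) → (J → X) → Prop) (hrefl : ∀ a, R a a) (htrans : ∀ a b c, R a b → R b c → R a c)
    (hex : ∀ (c : J → X) (j j' : J) (x' y' : X), j ≠ j' → A (c j) → B (c j') → E (c j) x' →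
      E (c j') y' → R c (Function.update (Function.update c j x') j' y')) :
    ∀ (N : ℕ) (c c₁ : J → X) (l : J → ℕ), (∀ j, Walk E (l j) (c j) (c₁ j)) → ∑ j, l j = N →
      cnt A c = cnt A c₁ → cnt B c = cnt B c₁ → (∃ j, A (c₁ j)) → (∃ j, B (c₁ j)) → R c c₁ := by
  classical
  intro N
  induction N using Nat.strong_induction_on with
  | _ N ih =>
    intro c c₁ l hw hN hcA hcB hA hB
    by_cases h0 : ∀ j, l j = 0
    · have : c = c₁ := by
        funext j
        have := hw j
        rw [h0 j] at this
        exact this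
      rw [this]; exact hrefl _
    push Not at h0
    obtain ⟨j₀, hj₀⟩ := h0
    have hj₀' : 0 < l j₀ := Nat.pos_of_ne_zero hj₀
    have hty : ∀ j, 0 < l j → A (c j) ∨ B (c j) := by
      intro j hj
      obtain ⟨m, hm⟩ : ∃ m, l j = m + 1 := ⟨l j - 1, by omega⟩
      have := hw j
      rw [hm] at this
      obtain ⟨z, hz, -⟩ := this
      rcases hE _ _ hz with h | h
      · exact Or.inl h.1
      · exact Or.inr h.1
    by_cases hmix : ∃ j j', 0 < l j ∧ 0 < l j' ∧ A (c j) ∧ B (c j')
    · obtain ⟨j, j', hj, hj', hja, hjb⟩ := hmix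
      have hne : j ≠ j' := by rintro rfl; exact hAB _ hja hjb
      obtain ⟨m, hm⟩ : ∃ m, l j = m + 1 := ⟨l j - 1, by omega⟩
      obtain ⟨m', hm'⟩ : ∃ m, l j' = m + 1 := ⟨l j' - 1, by omega⟩
      have h1 := hw j
      have h2 := hw j'
      rw [hm] at h1
      rw [hm'] at h2
      obtain ⟨z, hz, hz'⟩ := h1
      obtain ⟨y, hy, hy'⟩ := h2
      have hzB : B z := by
        rcases hE _ _ hz with h | h
        · exact h.2
        · exact absurd h.1 (hAB _ hja)
      have hyA : A y := by
        rcases hE _ _ hy with h | h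
        · exact absurd hjb (hAB _ h.1)
        · exact h.2
      have s1 := hex c j j' z y hne hja hjb hz hy
      set c' := Function.update (Function.update c j z) j' y with hc'
      have e1 : c' j' = y := by rw [hc', Function.update_self]
      have e2 : c' j = z := by rw [hc', Function.update_of_ne hne, Function.update_self]
      have e3 : ∀ i, i ≠ j → i ≠ j' → c' i = c i := by
        intro i hi hi'
        rw [hc', Function.update_of_ne hi', Function.update_of_ne hi]
      apply htrans _ _ _ s1
      have hlt : ∑ i, (Function.update (Function.update l j m) j' m') i < ∑ i, l i := by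
        apply Finset.sum_lt_sum
        · intro i _
          by_cases hi : i = j'
          · subst hi; rw [Function.update_self]; omega
          · rw [Function.update_of_ne hi]
            by_cases hi' : i = j
            · subst hi'; rw [Function.update_self]; omega
            · rw [Function.update_of_ne hi']
        · exact ⟨j', Finset.mem_univ _, by rw [Function.update_self]; omega⟩
      have hsw : ∀ (C : X → Prop), (C z ↔ C (c j')) → (C y ↔ C (c j)) → cnt C c' = cnt C c := by
        intro C h1 h2
        unfold cnt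
        rw [← Equiv.sum_comp (Equiv.swap j j') (fun i => if C (c i) then 1 else 0)]
        apply Finset.sum_congr rfl
        intro i _
        by_cases hi : i = j
        · subst hi
          rw [Equiv.swap_apply_left, e2]; simp only [h1]
        · by_cases hi' : i = j'
          · subst hi'
            rw [Equiv.swap_apply_right, e1]; simp only [h2]
          · rw [Equiv.swap_apply_of_ne_of_ne hi hi', e3 i hi hi']
      apply ih _ (by rw [← hN]; exact hlt) c' c₁ (Function.update (Function.update l j m) j' m')
      · intro i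
        by_cases hi : i = j'
        · subst hi; rw [e1, Function.update_self]; exact hy'
        · rw [Function.update_of_ne hi]
          by_cases hi' : i = j
          · subst hi'; rw [e2, Function.update_self]; exact hz'
          · rw [e3 i hi' hi, Function.update_of_ne hi']; exact hw i
      · rfl
      · rw [hsw A, hcA]
        · exact ⟨fun h => absurd hzB (hAB _ h), fun h => absurd hjb (hAB _ h)⟩
        · exact ⟨fun _ => hja, fun _ => hyA⟩
      · rw [hsw B, hcB]
        · exact ⟨fun _ => hjb, fun _ => hzB⟩
        · exact ⟨fun h => absurd h (hAB _ hyA), fun h => absurd h (hAB _ hja)⟩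
      · exact hA
      · exact hB
    · push Not at hmix
      rcases hty j₀ hj₀' with h | h
      · have hall : ∀ j, 0 < l j → A (c j) := by
          intro j hj
          rcases hty j hj with h' | h'
          · exact h'
          · exact absurd h' (hmix j₀ j hj₀' hj h)
        obtain ⟨c', l', hR, hw', hlt, hA', hB'⟩ := comb_step hE hs hAB hdegB R htrans hex c c₁ l hw
          hcB hB hall j₀ hj₀'
        apply htrans _ _ _ hR
        exact ih _ (by rw [← hN]; exact hlt) c' c₁ l' hw' rfl (by rw [cnt_congr hA', hcA])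
          (by rw [cnt_congr hB', hcB]) hA hB
      · have hall : ∀ j, 0 < l j → B (c j) := by
          intro j hj
          rcases hty j hj with h' | h'
          · exact absurd h (hmix j j₀ hj hj₀' h')
          · exact h'
        obtain ⟨c', l', hR, hw', hlt, hB', hA'⟩ := comb_step (A := B) (B := A)
          (fun x y h => (hE x y h).symm) hs (fun x hx hx' => hAB x hx' hx) hdegA R htrans
          (fun c j j' x' y' hne h1 h2 h3 h4 => by
            rw [Function.update_comm hne]
            exact hex c j' j y' x' hne.symm h2 h1 h4 h3) c c₁ l hw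
          hcA hA hall j₀ hj₀'
        apply htrans _ _ _ hR
        exact ih _ (by rw [← hN]; exact hlt) c' c₁ l' hw' rfl (by rw [cnt_congr hA', hcA])
          (by rw [cnt_congr hB', hcB]) hA hB

end

end Pool.Agent.Lib.MP_eee7a8_ag.TB.C33
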