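import Pool.Agent.Lib.MP_eee7a8_ag.TB.C33.Rule4

/-!
# TAGBR (helper33): parabolic elements and the representation
-/

open Matrix

namespace Pool.Agent.Lib.MP_eee7a8_ag.TB.C33

theorem par00 (a : Cusp) (n : ℤ) : (par a n).1 0 0 = 1 - n * a.x * a.y := rfl
theorem par01 (a : Cusp) (n : ℤ) : (par a n).1 0 1 = n * a.x * a.x := rfl
theorem par10 (a : Cusp) (n : ℤ) : (par a n).1 1 0 = -(n * a.y * a.y) := rfl
theorem par11 (a : Cusp) (n : ℤ) : (par a n).1 1 1 = 1 + n * a.x * a.y := rfl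

theorem ext4 {g h : SLZ} (h0 : g.1 0 0 = h.1 0 0) (h1 : g.1 0 1 = h.1 0 1)
    (h2 : g.1 1 0 = h.1 1 0) (h3 : g.1 1 1 = h.1 1 1) : g = h := by
  apply Subtype.ext
  ext i j
  fin_cases i <;> fin_cases j
  · exact h0
  · exact h1
  · exact h2
  · exact h3

theorem par_mul (a : Cusp) (m n : ℤ) : par a m * par a n = par a (m + n) := by
  apply ext4
  · rw [mul00, par00, par00, par01, par10, par00]; ring
  · rw [mul01, par00, par01, par01, par11, par01]; ring
  · rw [mul10, par10, par00, par11, par10, par10]; ring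
  · rw [mul11, par10, par01, par11, par11, par11]; ring

theorem par_zero (a : Cusp) : par a 0 = 1 := by
  apply Subtype.ext
  ext i j
  fin_cases i <;> fin_cases j <;> simp [par]

theorem par_inv (a : Cusp) (n : ℤ) : (par a n)⁻¹ = par a (-n) := by
  apply inv_eq_of_mul_eq_one_right
  rw [par_mul, add_neg_cancel, par_zero]

theorem par_npow (a : Cusp) (m : ℤ) (k : ℕ) : par a m ^ k = par a (k * m) := by
  induction k with
  | zero => simp [par_zero]
  | succ k ih => rw [pow_succ, ih, par_mul]; congr 1; push_cast; ring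

theorem par_zpow (a : Cusp) (m k : ℤ) : par a m ^ k = par a (k * m) := by
  obtain ⟨n, rfl | rfl⟩ := Int.eq_nat_or_neg k
  · rw [zpow_natCast, par_npow]
  · rw [_root_.zpow_neg, zpow_natCast, par_npow, par_inv]; congr 1; ring

theorem par_fix (a : Cusp) (n : ℤ) : par a n • a = a := by
  rw [fix_iff]
  simp only [side, par, Matrix.of_apply, Matrix.cons_val', Matrix.cons_val_zero,
    Matrix.cons_val_one, Matrix.cons_val_fin_one]
  ring

theorem neg_zpow_cases (g : SLZ) (k : ℤ) : (-g) ^ k = g ^ k ∨ (-g) ^ k = -g ^ k := by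
  rcases Int.even_or_odd k with h | h
  · left; exact h.neg_zpow g
  · right; exact h.neg_zpow g

theorem eps_neg (g : SLZ) (a : Cusp) : eps (-g) a = -eps g a := by
  have key : ∀ e e' : ℤ, ∀ b : Cusp, e * b.x = -e' * b.x → e * b.y = -e' * b.y → e = -e' := by
    intro e e' b h1 h2
    rcases b.ne_zero with hb | hb
    · exact mul_right_cancel₀ hb h1
    · exact mul_right_cancel₀ hb h2
  apply key _ _ (g • a)
  · have e1 := smul_x (-g) a
    have e2 := smul_x g a
    rw [neg_smul'] at e1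
    simp only [Matrix.SpecialLinearGroup.coe_neg, Matrix.neg_apply] at e1
    linarith
  · have e1 := smul_y (-g) a
    have e2 := smul_y g a
    rw [neg_smul'] at e1
    simp only [Matrix.SpecialLinearGroup.coe_neg, Matrix.neg_apply] at e1
    linarith

/-- A generator of the stabiliser of a cusp. -/
theorem exists_gen (hst : StabStatement) {G : Subgroup SLZ} (hG : IsSurface G) (c : Cusp) :
    ∃ γ ∈ G, (γ = par c (width G c) ∨ γ = -par c (width G c)) ∧ γ • c = c ∧
      ∀ g ∈ G, g • c = c → ∃ k : ℤ, g = γ ^ k ∨ g = -γ ^ k := by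
  obtain ⟨-, h2, h3⟩ := hst G hG c
  have key : ∀ γ : SLZ, (γ = par c (width G c) ∨ γ = -par c (width G c)) →
      ∀ g ∈ G, g • c = c → ∃ k : ℤ, g = γ ^ k ∨ g = -γ ^ k := by
    intro γ hγ g hg hgc
    obtain ⟨k, hk⟩ := h3 g hg hgc
    refine ⟨k, ?_⟩
    rw [← par_zpow] at hk
    rcases hγ with rfl | rfl
    · exact hk
    · rcases neg_zpow_cases (par c (width G c)) k with h | h
      · rw [h]; exact hk
      · rw [h, neg_neg]; exact hk.symm
  rcases h2 with h2 | h2
  · exact ⟨_, h2, Or.inl rfl, par_fix _ _, key _ (Or.inl rfl)⟩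
  · exact ⟨_, h2, Or.inr rfl, by rw [neg_smul', par_fix], key _ (Or.inr rfl)⟩

section

variable {G : Subgroup SLZ} {K : Type} [Field K] [Algebra ℂ K] {L : Lam G K}

/-- The matrix of a parabolic element. -/
theorem R_par (hvp : VparStatement) (hG : IsSurface G) (hnz : ∀ a b, a ≠ b → L.lam a b ≠ 0)
    (rp : Rep L) (c : Cusp) (k : ℤ) (γ : G) (s : ℤ)
    (hs : (s = 1 ∧ (γ : SLZ) = par c (k * width G c)) ∨
      (s = -1 ∧ (γ : SLZ) = -par c (k * width G c))) :
    (rp.R γ).1 0 0 = s * (1 - k * L.v c * rp.W c 0 * rp.W c 1) ∧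
    (rp.R γ).1 0 1 = s * (k * L.v c * rp.W c 0 * rp.W c 0) ∧
    (rp.R γ).1 1 0 = -(s * (k * L.v c * rp.W c 1 * rp.W c 1)) ∧
    (rp.R γ).1 1 1 = s * (1 + k * L.v c * rp.W c 0 * rp.W c 1) := by
  have h1 : ∀ x y : Cusp, rp.W x 0 * ((rp.R γ).1 1 0 * rp.W y 0 + (rp.R γ).1 1 1 * rp.W y 1) -
      rp.W x 1 * ((rp.R γ).1 0 0 * rp.W y 0 + (rp.R γ).1 0 1 * rp.W y 1) =
      s * (L.sl x y + k * L.v c * L.sl c y * L.sl x c) := by
    intro x y
    rw [act0, act1, ← hvp G K L hG c x y k]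
    have h2 : rp.W x 0 * (((eps γ y : ℤ) : K) * rp.W ((γ : SLZ) • y) 1) -
        rp.W x 1 * (((eps γ y : ℤ) : K) * rp.W ((γ : SLZ) • y) 0) =
        ((eps γ y : ℤ) : K) * L.sl x ((γ : SLZ) • y) := by
      rw [← rp.det]; ring
    rw [h2]
    rcases hs with ⟨rfl, h⟩ | ⟨rfl, h⟩
    · rw [h]; push_cast; ring
    · rw [h, eps_neg, neg_smul']; push_cast; ring
  set D := L.sl infty zero with hD
  have hD0 : D ≠ 0 := by
    apply sl_ne hnz
    intro h
    have := congrArg Cusp.x h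
    simp [zero, infty] at this
  have hDd : rp.W infty 0 * rp.W zero 1 - rp.W infty 1 * rp.W zero 0 = D := rp.det _ _
  -- vectors orthogonal to both basis vectors vanish
  have hz : ∀ z0 z1 : K, rp.W infty 0 * z1 - rp.W infty 1 * z0 = 0 →
      rp.W zero 0 * z1 - rp.W zero 1 * z0 = 0 → z0 = 0 ∧ z1 = 0 := by
    intro z0 z1 e1 e2
    constructor
    · have : D * z0 = 0 := by
        rw [← hDd]
        linear_combination (rp.W zero 0) * e1 - (rp.W infty 0) * e2
      exact (mul_eq_zero.1 this).resolve_left hD0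
    · have : D * z1 = 0 := by
        rw [← hDd]
        linear_combination (rp.W zero 1) * e1 - (rp.W infty 1) * e2
      exact (mul_eq_zero.1 this).resolve_left hD0
  set q00 := (rp.R γ).1 0 0 - s * (1 - k * L.v c * rp.W c 0 * rp.W c 1) with hq00
  set q01 := (rp.R γ).1 0 1 - s * (k * L.v c * rp.W c 0 * rp.W c 0) with hq01
  set q10 := (rp.R γ).1 1 0 + s * (k * L.v c * rp.W c 1 * rp.W c 1) with hq10
  set q11 := (rp.R γ).1 1 1 - s * (1 + k * L.v c * rp.W c 0 * rp.W c 1) with hq11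
  have h2 : ∀ x y : Cusp, rp.W x 0 * (q10 * rp.W y 0 + q11 * rp.W y 1) -
      rp.W x 1 * (q00 * rp.W y 0 + q01 * rp.W y 1) = 0 := by
    intro x y
    have e := h1 x y
    rw [← rp.det, ← rp.det, ← rp.det] at e
    rw [hq00, hq01, hq10, hq11]
    linear_combination e
  have h3 : ∀ y : Cusp, q00 * rp.W y 0 + q01 * rp.W y 1 = 0 ∧ q10 * rp.W y 0 + q11 * rp.W y 1 = 0 :=
    fun y => hz _ _ (h2 infty y) (h2 zero y)
  have h4 : -q01 = 0 ∧ q00 = 0 := by
    apply hz
    · linear_combination (h3 infty).1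
    · linear_combination (h3 zero).1
  have h5 : -q11 = 0 ∧ q10 = 0 := by
    apply hz
    · linear_combination (h3 infty).2
    · linear_combination (h3 zero).2
  refine ⟨sub_eq_zero.1 h4.2, sub_eq_zero.1 (neg_eq_zero.1 h4.1), ?_,
    sub_eq_zero.1 (neg_eq_zero.1 h5.1)⟩
  have := h5.2
  rw [hq10] at this
  exact eq_neg_of_add_eq_zero_left this

/-- Multiplying by a parabolic element. -/
theorem R_par_tr (hvp : VparStatement) (hG : IsSurface G) (hnz : ∀ a b, a ≠ b → L.lam a b ≠ 0)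
    (rp : Rep L) (c : Cusp) (k : ℤ) (γ g : G) (s : ℤ)
    (hs : (s = 1 ∧ (γ : SLZ) = par c (k * width G c)) ∨
      (s = -1 ∧ (γ : SLZ) = -par c (k * width G c))) :
    (rp.R (γ * g)).1.trace =
      s * ((rp.R g).1.trace + k * L.v c * ((eps g c : ℤ) : K) * L.sl c ((g : SLZ) • c)) := by
  obtain ⟨e1, e2, e3, e4⟩ := R_par hvp hG hnz rp c k γ s hs
  have e5 := act0 rp g c
  have e6 := act1 rp g c
  have e7 : ((eps g c : ℤ) : K) * L.sl c ((g : SLZ) • c) =
      rp.W c 0 * ((rp.R g).1 1 0 * rp.W c 0 + (rp.R g).1 1 1 * rp.W c 1) -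
      rp.W c 1 * ((rp.R g).1 0 0 * rp.W c 0 + (rp.R g).1 0 1 * rp.W c 1) := by
    rw [e5, e6, ← rp.det]; ring
  have e8 : (k : K) * L.v c * ((eps g c : ℤ) : K) * L.sl c ((g : SLZ) • c) =
      k * L.v c * (rp.W c 0 * ((rp.R g).1 1 0 * rp.W c 0 + (rp.R g).1 1 1 * rp.W c 1) -
      rp.W c 1 * ((rp.R g).1 0 0 * rp.W c 0 + (rp.R g).1 0 1 * rp.W c 1)) := by
    rw [← e7]; ring
  rw [e8, map_mul, trR]
  simp only [Matrix.trace_fin_two, Matrix.SpecialLinearGroup.coe_mul, Matrix.mul_apply,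
    Fin.sum_univ_two]
  rw [e1, e2, e3, e4]
  ring

end

end Pool.Agent.Lib.MP_eee7a8_ag.TB.C33
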