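import Pool.Agent.Lib.MP_eee7a8_ag.TB.C33.ParU

/-!
# TAGBR: PUSH (helper33)
-/

open Matrix

namespace Pool.Agent.Lib.MP_eee7a8_ag.TB.C33

theorem Ge_symm {G : Subgroup SLZ} {e : Option (Cusp × Cusp)} {a b : Cusp} (h : Ge G e a b) :
    Ge G e b a := by
  obtain ⟨p, hp, k, hk, h⟩ := h
  exact ⟨p, hp, k, hk, h.symm⟩

theorem Ge_nocross {G : Subgroup SLZ} {e : Option (Cusp × Cusp)} (he : Adm G e) {a b c d : Cusp}
    (h1 : Ge G e a b) (h2 : Ge G e c d) : ¬ Cross a b c d := by
  obtain ⟨p, hp, k, hk, h1⟩ := h1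
  obtain ⟨p', hp', l, hl, h2⟩ := h2
  rw [hp, Option.some.injEq] at hp'
  subst hp'
  have hs := (he p hp).1.2 (k⁻¹ * l) (G.mul_mem (G.inv_mem hk) hl)
  intro hc
  apply hs
  rw [← cross_smul k, mul_smul, mul_smul, smul_inv_smul, smul_inv_smul]
  rcases h1 with ⟨rfl, rfl⟩ | ⟨rfl, rfl⟩ <;> rcases h2 with ⟨rfl, rfl⟩ | ⟨rfl, rfl⟩
  · exact hc
  · exact cross_comm_right.1 hc
  · exact cross_comm_left.1 hc
  · exact cross_comm_right.1 (cross_comm_left.1 hc)

/-- An end of a translate of `uv` is in the orbit of `u`. -/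
theorem Ge_end {G : Subgroup SLZ} {u v a b : Cusp} (h : Ge G (some (u, v)) a b) :
    (∃ g ∈ G, g • u = a) ∨ (∃ g ∈ G, g • u = b) := by
  obtain ⟨p, hp, k, hk, h⟩ := h
  rw [Option.some.injEq] at hp
  subst hp
  rcases h with ⟨h, -⟩ | ⟨h, -⟩
  · left; exact ⟨k, hk, h⟩
  · right; exact ⟨k, hk, h⟩

theorem push (hpc : PushcStatement) (hns : NclsepStatement) (hfa : FormaStatement)
    (hfb : FormbStatement) (hrep : RepStatement) (htr : TraceStatement) (hst : StabStatement)
    (hvp : VparStatement) (hvi : VinvStatement) (hnz : NonzeroStatement) : PushStatement := by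
  intro G K _ _ L hG u v he
  obtain ⟨rp⟩ := hrep G K L hG
  have hnz' := hnz G K L hG
  obtain ⟨fa1, fa2, fa3, fa4, fa5, fa6, B, hB1, hB2, hB3⟩ := hfa
  obtain ⟨fb1, fb2⟩ := hfb
  set e : Option (Cusp × Cusp) := some (u, v) with hedef
  set A := Algebra.adjoin ℂ ((L.RR (Ge G e) : Set K) ∪ {L.v u}) with hA
  have hRA : ∀ x ∈ L.RR (Ge G e), x ∈ A := fun x hx => Algebra.subset_adjoin (Or.inl hx)
  have hvA : L.v u ∈ A := Algebra.subset_adjoin (Or.inr rfl)
  have hint : ∀ n : ℤ, (n : K) ∈ A := fun n => by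
    have := A.algebraMap_mem (n : ℂ)
    rwa [map_intCast] at this
  have hvc : ∀ c, (∃ g ∈ G, g • u = c) → L.v c = L.v u := by
    rintro c ⟨g, hg, rfl⟩
    exact (hvi G K L hG).1 g hg u
  -- separation of cusps
  have hsep : ∀ x y c d : Cusp, (cform x).ev c d * (cform y).ev c d < 0 ↔ Cross x y c d := by
    intro x y c d
    rw [(fa6 x).2, (fa6 y).2]
    unfold Cross
    rw [show ((dt x c : ℝ) * dt x d * (dt y c * dt y d)) =
      (((dt x c * dt y c) * (dt x d * dt y d) : ℤ) : ℝ) by push_cast; ring]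
    exact_mod_cast Iff.rfl
  have hslA : ∀ a b, L.lam a b ∈ A → L.sl a b ∈ A := fun a b h => A.mul_mem (hint _) h
  -- moving around a cusp
  have hmove : ∀ (B₁ B₂ : Form), B₁.Psd → B₂.Psd → (Sep G e B₁ B₂).Finite → ∀ c d, Ge G e c d →
      B₁.ev c d * B₂.ev c d < 0 → ∃ (γ : G) (k s : ℤ),
      ((s = 1 ∧ (γ : SLZ) = par c (k * width G c)) ∨
        (s = -1 ∧ (γ : SLZ) = -par c (k * width G c))) ∧
      (Sep G e B₁ (Form.act γ B₂)).ncard < (Sep G e B₁ B₂).ncard := by
    intro B₁ B₂ h1 h2 h3 c d h4 h5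
    obtain ⟨γ, hγ, hγp, hγc, hγg⟩ := exists_gen hst hG c
    obtain ⟨γ', hγ', -, hlt⟩ := hpc G hG e he B₁ B₂ h1 h2 h3 c d h4 h5 γ hγ hγc hγg
    rcases hγ' with rfl | rfl
    · refine ⟨⟨γ', hγ⟩, 1, if γ' = par c (width G c) then 1 else -1, ?_, hlt⟩
      rcases hγp with h | h
      · left; exact ⟨if_pos h, by rw [one_mul]; exact h⟩
      · by_cases h' : γ' = par c (width G c)
        · left; exact ⟨if_pos h', by rw [one_mul]; exact h'⟩
        · right; exact ⟨if_neg h', by rw [one_mul]; exact h⟩
    · refine ⟨⟨γ⁻¹, G.inv_mem hγ⟩, -1, if γ = par c (width G c) then 1 else -1, ?_, hlt⟩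
      rcases hγp with h | h
      · left; refine ⟨if_pos h, ?_⟩
        change γ⁻¹ = _
        rw [h, par_inv]; congr 1; ring
      · by_cases h' : γ = par c (width G c)
        · left; refine ⟨if_pos h', ?_⟩
          change γ⁻¹ = _
          rw [h', par_inv]; congr 1; ring
        · right; refine ⟨if_neg h', ?_⟩
          change γ⁻¹ = _
          rw [h, inv_neg, par_inv]; congr 2; ring
  -- pairs
  have P1 : ∀ n : ℕ, ∀ x y : Cusp, (Sep G e (cform x) (cform y)).ncard = n → L.lam x y ∈ A := by
    intro n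
    induction n using Nat.strong_induction_on with
    | _ n ih =>
      intro x y hn
      by_cases hemp : Sep G e (cform x) (cform y) = ∅
      · apply hRA
        apply Algebra.subset_adjoin
        left
        refine ⟨x, y, ?_, rfl⟩
        intro c d hcd hc
        have : (c, d) ∈ Sep G e (cform x) (cform y) := ⟨hcd, (hsep x y c d).2 hc⟩
        rw [hemp] at this
        exact this
      · obtain ⟨c, d, hcd, hcr, hcu⟩ : ∃ c d, Ge G e c d ∧ Cross x y c d ∧ ∃ g ∈ G, g • u = c := by
          obtain ⟨⟨c, d⟩, hcd, hlt⟩ := Set.nonempty_iff_ne_empty.2 hemp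
          have hcr := (hsep x y c d).1 hlt
          rcases Ge_end hcd with h | h
          · exact ⟨c, d, hcd, hcr, h⟩
          · exact ⟨d, c, Ge_symm hcd, cross_comm_right.1 hcr, h⟩
        obtain ⟨γ, k, s, hs, hlt⟩ := hmove _ _ (fa6 x).1 (fa6 y).1 (fb2 G e x y) c d hcd
          ((hsep x y c d).2 hcr)
        rw [fa5] at hlt
        have i1 : L.lam x ((γ : SLZ) • y) ∈ A := ih _ (by rw [← hn]; exact hlt) _ _ rfl
        -- smaller pairs
        have hsmall : ∀ x y : Cusp, Cross x y c d →
            (Sep G e (cform x) (cform c)).ncard < (Sep G e (cform x) (cform y)).ncard := by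
          intro x y hcr
          apply Set.ncard_lt_ncard _ (fb2 G e x y)
          constructor
          · rintro ⟨p, q⟩ ⟨hpq, hlt⟩
            refine ⟨hpq, ?_⟩
            rw [hsep] at hlt ⊢
            rcases Cross.side hcr (cross_swap.1 hlt) with h | h
            · exact cross_swap.1 h
            · exact absurd h (Ge_nocross he hpq hcd)
          · intro hsub
            have : (c, d) ∈ Sep G e (cform x) (cform y) := ⟨hcd, (hsep x y c d).2 hcr⟩
            have := (hsub this).2
            rw [hsep] at this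
            exact this.ne.2.2.2.1 rfl
        have i2 : L.lam x c ∈ A := ih _ (by rw [← hn]; exact hsmall x y hcr) _ _ rfl
        have hsw : (Sep G e (cform y) (cform x)) = (Sep G e (cform x) (cform y)) := by
          ext ⟨p, q⟩
          simp only [Sep, Set.mem_ofPred_eq]
          rw [mul_comm]
        have i3 : L.lam y c ∈ A := ih _ (by
          rw [← hn, ← hsw]; exact hsmall y x (cross_comm_left.1 hcr)) _ _ rfl
        have hv := hvp G K L hG c x y k
        have e1 : ((eps (par c (k * width G c)) y : ℤ) : K) * L.sl x (par c (k * width G c) • y) ∈ A := by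
          apply A.mul_mem (hint _)
          rcases hs with ⟨-, h⟩ | ⟨-, h⟩
          · rw [← h]; exact hslA _ _ i1
          · have h' : par c (k * width G c) • y = (γ : SLZ) • y := by rw [h, neg_smul']
            rw [h']; exact hslA _ _ i1
        have e2 : L.sl x y = ((eps (par c (k * width G c)) y : ℤ) : K) *
            L.sl x (par c (k * width G c) • y) - k * L.v c * L.sl c y * L.sl x c := by
          rw [hv]; ring
        have e3 : L.sl x y ∈ A := by
          rw [e2]
          apply A.sub_mem e1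
          apply A.mul_mem _ (hslA _ _ i2)
          apply A.mul_mem
          · apply A.mul_mem (hint _)
            rw [hvc c hcu]; exact hvA
          · apply A.mul_mem (hint _)
            rw [L.symm]; exact i3
        have hxy : x ≠ y := hcr.ne.1
        have e4 : L.lam x y = ((Int.sign (dt x y) : ℤ) : K) * L.sl x y := by
          unfold Lam.sl
          rw [← mul_assoc, ← Int.cast_mul, sign_ne (dt_ne_zero hxy), Int.cast_one, one_mul]
        rw [e4]
        exact A.mul_mem (hint _) e3
  -- traces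
  have P2 : ∀ n : ℕ, ∀ g : G, (Sep G e B (Form.act g B)).ncard = n → (rp.R g).1.trace ∈ A := by
    intro n
    induction n using Nat.strong_induction_on with
    | _ n ih =>
      intro g hn
      obtain ⟨hg1, hg2⟩ := fa4 g B hB1 hB2
      have hpsd : ∀ B : Form, 0 < B.p → B.q ^ 2 < B.p * B.r → B.Psd := by
        intro B h1 h2
        have h3 : 0 < B.r := by
          by_contra hn
          push Not at hn
          nlinarith [sq_nonneg B.q, mul_nonneg h1.le (neg_nonneg.2 hn)]
        exact ⟨h1.le, h3.le, h2.le, by linarith⟩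
      by_cases hemp : Sep G e B (Form.act g B) = ∅
      · rcases rep_tr htr hnz' hG rp g with ⟨h1, s, hs, h2⟩ | ⟨h1, s, hs, h2⟩
        · rw [h2]
          apply A.mul_mem (hint _)
          apply hRA
          apply Algebra.subset_adjoin
          right
          exact ⟨g, g.2, h1, hns G hG e he B hB1 hB2 (fun c d _ => hB3 c d) g g.2 h1 hemp, rfl⟩
        · rw [h2]
          apply A.mul_mem (hint _)
          have := hint 2
          simpa using this
      · obtain ⟨c, d, hcd, hcr, hcu⟩ : ∃ c d, Ge G e c d ∧ B.ev c d * (Form.act g B).ev c d < 0 ∧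
            ∃ g ∈ G, g • u = c := by
          obtain ⟨⟨c, d⟩, hcd, hlt⟩ := Set.nonempty_iff_ne_empty.2 hemp
          rcases Ge_end hcd with h | h
          · exact ⟨c, d, hcd, hlt, h⟩
          · refine ⟨d, c, Ge_symm hcd, ?_, h⟩
            have hsym : ∀ (B : Form) (a b : Cusp), B.ev a b = B.ev b a := by
              intro B a b; unfold Form.ev; ring
            rw [hsym B d c, hsym _ d c]; exact hlt
        obtain ⟨γ, k, s, hs, hlt⟩ := hmove _ _ (hpsd B hB1 hB2) (hpsd _ hg1 hg2)
          (fb1 G e B _ hB1 hg1 hB2 hg2) c d hcd hcr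
        rw [fa2] at hlt
        have i1 : (rp.R (γ * g)).1.trace ∈ A := ih _ (by rw [← hn]; exact hlt) _ rfl
        have i2 : L.lam c ((g : SLZ) • c) ∈ A := P1 _ _ _ rfl
        rw [R_par_tr hvp hG hnz' rp c k γ g s hs] at i1
        have hs1 : (s : K) * (s : K) = 1 := by
          rcases hs with ⟨rfl, -⟩ | ⟨rfl, -⟩ <;> norm_num
        have e1 := A.mul_mem (hint s) i1
        rw [← mul_assoc, hs1, one_mul] at e1
        have e2 : (k : K) * L.v c * ((eps g c : ℤ) : K) * L.sl c ((g : SLZ) • c) ∈ A := by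
          apply A.mul_mem _ (hslA _ _ i2)
          apply A.mul_mem _ (hint _)
          apply A.mul_mem (hint _)
          rw [hvc c hcu]; exact hvA
        have := A.sub_mem e1 e2
        simpa using this
  -- conclusion
  intro x hx
  have hle : L.RA ≤ A := by
    apply Algebra.adjoin_le
    rintro z (⟨a, b, -, rfl⟩ | ⟨g, hg, ht, -, rfl⟩)
    · exact P1 _ _ _ rfl
    · rcases rep_tr htr hnz' hG rp ⟨g, hg⟩ with ⟨h1, s, hs, h2⟩ | ⟨h1, -⟩
      · have hs1 : (s : K) * (s : K) = 1 := by
          rcases hs with rfl | rfl <;> norm_num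
        have h3 : L.tr g = s * (rp.R ⟨g, hg⟩).1.trace := by
          rw [h2, ← mul_assoc, hs1, one_mul]
        change L.tr g ∈ A
        rw [h3]
        exact A.mul_mem (hint _) (P2 _ _ rfl)
      · exact absurd h1 (ne_of_gt ht)
  exact hle hx

end Pool.Agent.Lib.MP_eee7a8_ag.TB.C33
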