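import Pool.Agent.Lib.MP_eee7a8_ag.TB.C33.Util

/-!
# TAGBR (helper33): traces of the representation, words of elements of `G`
-/

open Matrix

namespace Pool.Agent.Lib.MP_eee7a8_ag.TB.C33

theorem dt_side (g : SLZ) (a : Cusp) : dt a (g • a) = eps g a * side g a := by
  unfold dt side
  rw [smul_x', smul_y']; ring

theorem fix_iff (g : SLZ) (a : Cusp) : g • a = a ↔ side g a = 0 := by
  constructor
  · intro h
    have h1 := dt_side g a
    rw [h, dt_self] at h1
    rcases mul_eq_zero.1 h1.symm with h2 | h2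
    · exact absurd h2 (eps_ne_zero g a)
    · exact h2
  · intro h
    have h1 := dt_side g a
    rw [h, mul_zero] at h1
    exact (dt_eq_zero.1 h1).symm

/-- The cusp of a primitive vector. -/
theorem exists_cusp (x y : ℤ) (h : IsCoprime x y) :
    ∃ (v : Cusp) (e : ℤ), (e = 1 ∨ e = -1) ∧ e * v.x = x ∧ e * v.y = y :=
  ⟨Cusp.mk' x y h, _, (mk'_aux x y h).2.2, (mk'_aux x y h).1, (mk'_aux x y h).2.1⟩

/-- An integer matrix of trace `±2` fixes a cusp. -/
theorem fix_of_trace {g : SLZ} (h : |g.1.trace| = 2) : ∃ a : Cusp, g • a = a := by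
  have hdet := det_eq g
  rw [tr2] at h
  obtain ⟨s, hs, hs'⟩ : ∃ s : ℤ, s * s = 1 ∧ g.1 0 0 + g.1 1 1 = 2 * s := by
    rcases abs_eq (by norm_num : (0 : ℤ) ≤ 2) |>.1 h with h1 | h1
    · exact ⟨1, by norm_num, by linarith⟩
    · exact ⟨-1, by norm_num, by linarith⟩
  simp only [fix_iff]
  unfold side
  generalize g.1 0 0 = a at *
  generalize g.1 0 1 = b at *
  generalize g.1 1 0 = c at *
  generalize g.1 1 1 = d at *
  have hd : d = 2 * s - a := by linarith
  subst hd
  have hbc : b * c = -(a - s) ^ 2 := by nlinarith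
  by_cases h0 : b = 0 ∧ s - a = 0
  · refine ⟨zero, ?_⟩
    simp only [zero]
    rw [h0.1]; ring
  · have hg : 0 < Int.gcd b (s - a) := by
      rw [Nat.pos_iff_ne_zero, Ne, Int.gcd_eq_zero_iff]
      exact h0
    obtain ⟨x, y, hxy, hx, hy⟩ := Int.exists_gcd_one hg
    obtain ⟨v, e, he, h1, h2⟩ := exists_cusp x y (Int.isCoprime_iff_gcd_eq_one.2 hxy)
    refine ⟨v, ?_⟩
    have hgz : ((Int.gcd b (s - a) : ℕ) : ℤ) ≠ 0 := by exact_mod_cast hg.ne'
    have he2 : e * e = 1 := by rcases he with h | h <;> rw [h] <;> norm_num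
    -- (a x + b y) = s x, (c x + d y) = s y
    have k1 : a * x + b * y = s * x := by
      apply mul_right_cancel₀ hgz
      calc (a * x + b * y) * _ = a * (x * ((Int.gcd b (s - a) : ℕ) : ℤ)) +
            b * (y * ((Int.gcd b (s - a) : ℕ) : ℤ)) := by ring
        _ = a * b + b * (s - a) := by rw [← hx, ← hy]
        _ = s * b := by ring
        _ = s * (x * ((Int.gcd b (s - a) : ℕ) : ℤ)) := by rw [← hx]
        _ = _ := by ring
    have k2 : c * x + (2 * s - a) * y = s * y := by
      apply mul_right_cancel₀ hgz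
      calc (c * x + (2 * s - a) * y) * _ = c * (x * ((Int.gcd b (s - a) : ℕ) : ℤ)) +
            (2 * s - a) * (y * ((Int.gcd b (s - a) : ℕ) : ℤ)) := by ring
        _ = c * b + (2 * s - a) * (s - a) := by rw [← hx, ← hy]
        _ = s * (s - a) := by linear_combination hbc
        _ = s * (y * ((Int.gcd b (s - a) : ℕ) : ℤ)) := by rw [← hy]
        _ = _ := by ring
    rw [← h1, ← h2] at k1 k2
    have k3 : v.x * (c * v.x + (2 * s - a) * v.y) - v.y * (a * v.x + b * v.y) =
        v.x * (e * (c * (e * v.x) + (2 * s - a) * (e * v.y))) -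
          v.y * (e * (a * (e * v.x) + b * (e * v.y))) := by
      linear_combination (-(v.x * (c * v.x + (2 * s - a) * v.y) - v.y * (a * v.x + b * v.y))) * he2
    rw [k3, k1, k2]; ring

section rep

variable {G : Subgroup SLZ} {K : Type} [Field K] [Algebra ℂ K] {L : Lam G K}

theorem sign_ne {n : ℤ} (h : n ≠ 0) : Int.sign n * Int.sign n = 1 := by
  rcases lt_or_gt_of_ne h with h | h
  · rw [Int.sign_eq_neg_one_of_neg h]; norm_num
  · rw [Int.sign_eq_one_of_pos h]; norm_num

theorem sign_or {n : ℤ} (h : n ≠ 0) : Int.sign n = 1 ∨ Int.sign n = -1 := by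
  rcases lt_or_gt_of_ne h with h | h
  · right; exact Int.sign_eq_neg_one_of_neg h
  · left; exact Int.sign_eq_one_of_pos h

theorem sl_ne (hnz : ∀ a b, a ≠ b → L.lam a b ≠ 0) {a b : Cusp} (h : a ≠ b) : L.sl a b ≠ 0 := by
  unfold Lam.sl
  apply mul_ne_zero _ (hnz a b h)
  rcases sign_or (dt_ne_zero h) with h1 | h1 <;> rw [h1] <;> simp

theorem exists_ne_cusp (a : Cusp) : ∃ b : Cusp, b ≠ a := by
  by_cases h : a = infty
  · refine ⟨zero, ?_⟩
    rw [h]; intro h'
    have := congrArg Cusp.x h'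
    simp [zero, infty] at this
  · exact ⟨infty, fun h' => h h'.symm⟩

theorem W_ne (hnz : ∀ a b, a ≠ b → L.lam a b ≠ 0) (rp : Rep L) (a : Cusp) :
    rp.W a 0 ≠ 0 ∨ rp.W a 1 ≠ 0 := by
  by_contra hn
  push Not at hn
  obtain ⟨b, hb⟩ := exists_ne_cusp a
  have h1 := rp.det a b
  rw [hn.1, hn.2] at h1
  exact sl_ne hnz hb.symm (by rw [← h1]; ring)

theorem act0 (rp : Rep L) (g : G) (a : Cusp) :
    (rp.R g).1 0 0 * rp.W a 0 + (rp.R g).1 0 1 * rp.W a 1 =
      ((eps g a : ℤ) : K) * rp.W ((g : SLZ) • a) 0 := by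
  have h := congrFun (rp.act g a) 0
  simpa [Matrix.mulVec, dotProduct, Fin.sum_univ_two] using h

theorem act1 (rp : Rep L) (g : G) (a : Cusp) :
    (rp.R g).1 1 0 * rp.W a 0 + (rp.R g).1 1 1 * rp.W a 1 =
      ((eps g a : ℤ) : K) * rp.W ((g : SLZ) • a) 1 := by
  have h := congrFun (rp.act g a) 1
  simpa [Matrix.mulVec, dotProduct, Fin.sum_univ_two] using h

theorem trR (rp : Rep L) (g : G) : (rp.R g).1.trace = (rp.R g).1 0 0 + (rp.R g).1 1 1 :=
  Matrix.trace_fin_two _

theorem detR (rp : Rep L) (g : G) :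
    (rp.R g).1 0 0 * (rp.R g).1 1 1 - (rp.R g).1 0 1 * (rp.R g).1 1 0 = 1 := by
  have := (rp.R g).2
  rwa [Matrix.det_fin_two] at this

/-- The trace of an element fixing a cusp. -/
theorem rep_tr_fix (hnz : ∀ a b, a ≠ b → L.lam a b ≠ 0) (rp : Rep L) (g : G) {a : Cusp}
    (ha : (g : SLZ) • a = a) : (rp.R g).1.trace = ((eps g a : ℤ) : K) * 2 := by
  have h0 := act0 rp g a
  have h1 := act1 rp g a
  have hd := detR rp g
  rw [ha] at h0 h1
  have he : ((eps g a : ℤ) : K) * ((eps g a : ℤ) : K) = 1 := by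
    rw [← Int.cast_mul, eps_sq, Int.cast_one]
  have hw := W_ne hnz rp a
  rw [trR]
  generalize (rp.R g).1 0 0 = p at *
  generalize (rp.R g).1 0 1 = q at *
  generalize (rp.R g).1 1 0 = r at *
  generalize (rp.R g).1 1 1 = s at *
  generalize rp.W a 0 = x at *
  generalize rp.W a 1 = y at *
  generalize ((eps g a : ℤ) : K) = e at *
  have k0 : (p + s - e * 2) * x = 0 := by
    linear_combination (e * (e - s)) * h0 + e * q * h1 + e * x * hd + (e * x - (p + s) * x) * he
  have k1 : (p + s - e * 2) * y = 0 := by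
    linear_combination (e * (e - p)) * h1 + e * r * h0 + e * y * hd + (e * y - (p + s) * y) * he
  rcases hw with h | h
  · rcases mul_eq_zero.1 k0 with h' | h'
    · exact sub_eq_zero.1 h'
    · exact absurd h' h
  · rcases mul_eq_zero.1 k1 with h' | h'
    · exact sub_eq_zero.1 h'
    · exact absurd h' h

/-- Traces of the representation. -/
theorem rep_tr (htr : TraceStatement) (hnz : ∀ a b, a ≠ b → L.lam a b ≠ 0) (hG : IsSurface G)
    (rp : Rep L) (g : G) :
    (2 < |(g : SLZ).1.trace| ∧ ∃ s : ℤ, (s = 1 ∨ s = -1) ∧ (rp.R g).1.trace = s * L.tr g) ∨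
    (|(g : SLZ).1.trace| = 2 ∧ ∃ s : ℤ, (s = 1 ∨ s = -1) ∧ (rp.R g).1.trace = s * 2) := by
  rcases lt_or_eq_of_le (hG.tor g g.2) with h | h
  · left
    refine ⟨h, Int.sign (g : SLZ).1.trace, sign_or ?_, ?_⟩
    · intro h0; rw [h0] at h; simp at h
    · have h1 := (htr G K L hG g g.2 h).2.2.2.2.2.2 rp g rfl
      have h2 : Int.sign (g : SLZ).1.trace * Int.sign (g : SLZ).1.trace = 1 := by
        apply sign_ne
        intro h0; rw [h0] at h; simp at h
      have h3 : ((Int.sign (g : SLZ).1.trace : ℤ) : K) * ((Int.sign (g : SLZ).1.trace : ℤ) : K) = 1 := by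
        rw [← Int.cast_mul, h2, Int.cast_one]
      rw [h1, ← mul_assoc, h3, one_mul]
  · right
    obtain ⟨a, ha⟩ := fix_of_trace h.symm
    exact ⟨h.symm, eps g a, eps_or _ _, rep_tr_fix hnz rp g ha⟩

/-- Fricke identity for the representation. -/
theorem R_fricke (rp : Rep L) (g h : G) :
    (rp.R g).1.trace * (rp.R h).1.trace = (rp.R (g * h)).1.trace + (rp.R (g * h⁻¹)).1.trace := by
  rw [map_mul, map_mul, map_inv]
  simp only [Matrix.trace_fin_two, Matrix.SpecialLinearGroup.coe_mul, Matrix.mul_apply,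
    Fin.sum_univ_two, Matrix.SpecialLinearGroup.coe_inv, Matrix.adjugate_fin_two, Matrix.of_apply,
    Matrix.cons_val', Matrix.cons_val_zero, Matrix.cons_val_one, Matrix.cons_val_fin_one]
  ring

theorem R_tr_conj (rp : Rep L) (g h : G) : (rp.R (g * h * g⁻¹)).1.trace = (rp.R h).1.trace := by
  rw [map_mul, map_mul, map_inv, Matrix.SpecialLinearGroup.coe_mul, Matrix.trace_mul_comm,
    ← Matrix.SpecialLinearGroup.coe_mul, inv_mul_cancel_left]

/-- Every product of traces is a multiple of a word. -/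
theorem word_of_list (htr : TraceStatement) (hnz : ∀ a b, a ≠ b → L.lam a b ≠ 0)
    (hG : IsSurface G) (rp : Rep L) (e : Option (Cusp × Cusp)) (l : List G)
    (hl : ∀ x ∈ l, 2 < |(x : SLZ).1.trace| → NCL G e x) :
    ∃ (w : Wd) (c : ℂ), w.OK G e ∧ w.val = (l.map (fun x : G => rho x)).prod ∧
      w.len ≤ l.length ∧
      (l.map (fun x : G => (rp.R x).1.trace)).prod = algebraMap ℂ K c * L.W w := by
  induction l with
  | nil =>
    refine ⟨⟨[], []⟩, 1, ⟨by simp, by simp, by simp, by simp⟩, by simp [Wd.val], by simp [Wd.len],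
      by simp [Lam.W]⟩
  | cons x l ih =>
    obtain ⟨w, c, hw, hv, hlen, hc⟩ := ih (fun y hy => hl y (List.mem_cons_of_mem _ hy))
    rcases rep_tr htr hnz hG rp x with ⟨h1, s, hs, h2⟩ | ⟨h1, s, hs, h2⟩
    · refine ⟨⟨w.arcs, (x : SLZ) :: w.els⟩, s * c, ⟨hw.ne, hw.nc, ?_, ?_⟩, ?_, ?_, ?_⟩
      · intro g hg
        rcases List.mem_cons.1 hg with rfl | hg
        · exact ⟨x.2, h1⟩
        · exact hw.mem g hg
      · intro g hg
        rcases List.mem_cons.1 hg with rfl | hg
        · exact hl x (by simp) h1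
        · exact hw.ncl g hg
      · simp only [Wd.val, List.map_cons, List.prod_cons] at hv ⊢
        rw [← hv]; ring
      · simp only [Wd.len, List.length_cons] at hlen ⊢
        omega
      · simp only [List.map_cons, List.prod_cons, Lam.W] at hc ⊢
        rw [hc, h2, map_mul, map_intCast]; ring
    · refine ⟨w, s * 2 * c, hw, ?_, ?_, ?_⟩
      · simp only [List.map_cons, List.prod_cons]
        rw [rho_two h1, hv, one_mul]
      · simp only [List.length_cons]; omega
      · simp only [List.map_cons, List.prod_cons]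
        rw [hc, h2, map_mul, map_mul, map_intCast, map_ofNat]; ring

/-- Products of traces with small value are in the span of small words. -/
theorem list_mem_span (htr : TraceStatement) (hnz : ∀ a b, a ≠ b → L.lam a b ≠ 0)
    (hG : IsSurface G) (rp : Rep L) (e : Option (Cusp × Cusp)) (l : List G)
    (hl : ∀ x ∈ l, 2 < |(x : SLZ).1.trace| → NCL G e x) (w₀ : Wd)
    (hv : (l.map (fun x : G => rho x)).prod < w₀.val) :
    (l.map (fun x : G => (rp.R x).1.trace)).prod ∈ Submodule.span ℂ {z : K | ∃ w' : Wd, w'.OK G e ∧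
      (w'.val < w₀.val ∨ (w'.val = w₀.val ∧ w'.len < w₀.len)) ∧ z = L.W w'} := by
  obtain ⟨w, c, hw, hval, -, hc⟩ := word_of_list htr hnz hG rp e l hl
  rw [hc, ← Algebra.smul_def]
  apply Submodule.smul_mem
  apply Submodule.subset_span
  exact ⟨w, hw, Or.inl (by rw [hval]; exact hv), rfl⟩

end rep

end Pool.Agent.Lib.MP_eee7a8_ag.TB.C33
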