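import Pool.Agent.Lib.MP_eee7a8_ag.TB.C33.RepU

/-!
# TAGBR: RULE4 (helper33)
-/

open Matrix

namespace Pool.Agent.Lib.MP_eee7a8_ag.TB.C33

theorem side_eq (g : SLZ) (a : Cusp) : side g a = eps g a * dt a (g • a) := by
  rw [dt_side, ← mul_assoc, eps_sq, one_mul]

theorem eps_one (a : Cusp) : eps 1 a = 1 := by
  have h := eps_mul 1 1 a
  rw [mul_one, one_smul] at h
  rcases eps_or 1 a with h1 | h1
  · exact h1
  · rw [h1] at h; norm_num at h

theorem side_conj (g k : SLZ) (a : Cusp) : side (g * k * g⁻¹) a = side k (g⁻¹ • a) := by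
  obtain ⟨b, rfl⟩ : ∃ b, g • b = a := ⟨g⁻¹ • a, by rw [smul_inv_smul]⟩
  rw [inv_smul_smul, side_eq, side_eq k, eps_mul, eps_mul, mul_smul, mul_smul, inv_smul_smul,
    dt_smul]
  have h1 : eps g⁻¹ (g • b) * eps g b = 1 := by rw [← eps_mul, inv_mul_cancel, eps_one]
  have h2 := eps_sq g (k • b)
  linear_combination (eps k b * dt b (k • b) * (eps g (k • b) * eps g (k • b))) * h1 +
    (eps k b * dt b (k • b)) * h2

theorem Ge_smul {G : Subgroup SLZ} {e : Option (Cusp × Cusp)} {g : SLZ} (hg : g ∈ G) {a b : Cusp}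
    (h : Ge G e a b) : Ge G e (g • a) (g • b) := by
  obtain ⟨p, hp, k, hk, h⟩ := h
  refine ⟨p, hp, g * k, G.mul_mem hg hk, ?_⟩
  rcases h with ⟨rfl, rfl⟩ | ⟨rfl, rfl⟩
  · left; exact ⟨mul_smul _ _ _, mul_smul _ _ _⟩
  · right; exact ⟨mul_smul _ _ _, mul_smul _ _ _⟩

theorem NCL_conj {G : Subgroup SLZ} {e : Option (Cusp × Cusp)} {g k : SLZ} (hg : g ∈ G)
    (h : NCL G e k) : NCL G e (g * k * g⁻¹) := by
  intro c d hcd
  rw [side_conj, side_conj]
  exact h _ _ (Ge_smul (G.inv_mem hg) hcd)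

theorem rho_congr {g h : SLZ} (e : g.1.trace = h.1.trace) : rho g = rho h := by
  unfold rho; rw [e]

/-- Both products of elements with crossing axes have small spectral radius. -/
theorem rho_cross {g h : SLZ} (hc : AxesCross g h) (hg : 2 < |g.1.trace|) (hh : 2 < |h.1.trace|)
    (h1 : 2 ≤ |(g * h).1.trace|) (h2 : 2 ≤ |(g * h⁻¹).1.trace|) :
    rho (g * h) < rho g * rho h ∧ rho (g * h⁻¹) < rho g * rho h := by
  have h3 := axes_ineq hc hg hh
  have key : ∀ x : ℤ, (2 * |x| - |g.1.trace| * |h.1.trace|) ^ 2 ≤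
      (2 * x - g.1.trace * h.1.trace) ^ 2 := by
    intro x
    rw [← abs_mul]
    have e1 : (2 : ℤ) * |x| = |2 * x| := by rw [abs_mul]; norm_num
    rw [e1]
    exact sq_le_sq.2 (abs_abs_sub_abs_le _ _)
  have h4 := tr_fricke g h
  constructor
  · exact rho_mul_lt hg.le hh.le h1 (lt_of_le_of_lt (key _) h3)
  · refine rho_mul_lt hg.le hh.le h2 (lt_of_le_of_lt (key _) ?_)
    have e2 : (2 * (g * h⁻¹).1.trace - g.1.trace * h.1.trace) ^ 2 =
        (2 * (g * h).1.trace - g.1.trace * h.1.trace) ^ 2 := by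
      have : (g * h⁻¹).1.trace = g.1.trace * h.1.trace - (g * h).1.trace := by linarith
      rw [this]; ring
    rw [e2]; exact h3

theorem rule4 (hnclg : NclgStatement) (hrep : RepStatement) (htr : TraceStatement)
    (hnz : NonzeroStatement) : Rule4Statement := by
  intro G hG e he h k g hg hw hax K _ _ L
  obtain ⟨rp⟩ := hrep G K L hG
  have hnz' := hnz G K L hG
  obtain ⟨hh, hht⟩ := hw.mem h (by simp)
  obtain ⟨hk, hkt⟩ := hw.mem k (by simp)
  have hhn := hw.ncl h (by simp)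
  have hkn := hw.ncl k (by simp)
  set k' : SLZ := g * k * g⁻¹ with hk'
  have hkG : k' ∈ G := G.mul_mem (G.mul_mem hg hk) (G.inv_mem hg)
  have hktr : k'.1.trace = k.1.trace := tr_conj g k
  have hkt' : 2 < |k'.1.trace| := by rw [hktr]; exact hkt
  have hn := (hnclg G hG e he).1 h hh k' hkG hht hkt' hhn (NCL_conj hg hkn) hax
  have hr := rho_cross hax hht hkt' (hG.tor _ (G.mul_mem hh hkG))
    (hG.tor _ (G.mul_mem hh (G.inv_mem hkG)))
  let h₁ : G := ⟨h, hh⟩
  let k₁ : G := ⟨k', hkG⟩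
  have hval : (⟨[], [h, k]⟩ : Wd).val = rho h * rho k' := by
    simp [Wd.val, rho_congr hktr]
  have m1 := list_mem_span htr hnz' hG rp e [h₁ * k₁] (by
    intro x hx hxt
    rw [List.mem_singleton.1 hx] at hxt ⊢
    exact hn.1 hxt) ⟨[], [h, k]⟩ (by
    rw [hval]; simpa using hr.1)
  have m2 := list_mem_span htr hnz' hG rp e [h₁ * k₁⁻¹] (by
    intro x hx hxt
    rw [List.mem_singleton.1 hx] at hxt ⊢
    exact hn.2 hxt) ⟨[], [h, k]⟩ (by
    rw [hval]; simpa using hr.2)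
  simp only [List.map_cons, List.map_nil, List.prod_cons, List.prod_nil, mul_one] at m1 m2
  have htk : L.tr k' = L.tr k := (htr G K L hG k hk hkt).2.2.2.1 g hg
  have hW : L.W ⟨[], [h, k]⟩ = L.tr h * L.tr k' := by
    simp [Lam.W, htk]
  rw [hW]
  obtain ⟨s, hs, h1⟩ : ∃ s : ℤ, (s = 1 ∨ s = -1) ∧ (rp.R h₁).1.trace = s * L.tr h := by
    rcases rep_tr htr hnz' hG rp h₁ with ⟨-, h⟩ | ⟨h, -⟩
    · exact h
    · exact absurd h (ne_of_gt hht)
  obtain ⟨s', hs', h2⟩ : ∃ s : ℤ, (s = 1 ∨ s = -1) ∧ (rp.R k₁).1.trace = s * L.tr k' := by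
    rcases rep_tr htr hnz' hG rp k₁ with ⟨-, h⟩ | ⟨h, -⟩
    · exact h
    · exact absurd h (ne_of_gt hkt')
  have hf := R_fricke rp h₁ k₁
  rw [h1, h2] at hf
  have hm := Submodule.add_mem _ m1 m2
  rw [← hf] at hm
  rcases hs with rfl | rfl <;> rcases hs' with rfl | rfl
  · simpa using hm
  · have := Submodule.neg_mem _ hm
    simpa using this
  · have := Submodule.neg_mem _ hm
    simpa using this
  · simpa using hm

end Pool.Agent.Lib.MP_eee7a8_ag.TB.C33
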