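import Pool.Agent.Lib.MP_eee7a8_ag.TB.C33.Rule4

/-!
# TAGBR: RULE5 (helper33)
-/

open Matrix

namespace Pool.Agent.Lib.MP_eee7a8_ag.TB.C33

/-- Markov type inequality. -/
theorem markov_ineq {A B T : ℤ} (hA : 2 ≤ A) (hB : 2 ≤ B) (hT : 2 < T)
    (hf : 0 < A ^ 2 + B ^ 2 + T ^ 2 - A * B * T - 4) (h1 : 2 * A ≤ T * B) (h2 : 2 * B ≤ T * A) :
    A * B < 2 * T := by
  by_contra hn
  push Not at hn
  wlog hAB : A ≤ B generalizing A B with H
  · exact H hB hA (by linarith) h2 h1 (by linarith) (by omega)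
  have e1 : A ^ 2 * (A ^ 2 + B ^ 2 + T ^ 2 - A * B * T - 4) =
      (A ^ 2 - 4) * (A ^ 2 - B ^ 2) + (T * A - 2 * B) * (A * T + 2 * B - A ^ 2 * B) := by ring
  have e2 : (A ^ 2 - 4) * (A ^ 2 - B ^ 2) ≤ 0 :=
    mul_nonpos_of_nonneg_of_nonpos (by nlinarith) (by nlinarith)
  have e3 : A * T + 2 * B - A ^ 2 * B ≤ 0 := by
    have h3 : A * (2 * T) ≤ A * (A * B) := mul_le_mul_of_nonneg_left hn (by linarith)
    have h4 : 0 ≤ B * (A ^ 2 - 4) := mul_nonneg (by linarith) (by nlinarith)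
    nlinarith
  have e4 : (T * A - 2 * B) * (A * T + 2 * B - A ^ 2 * B) ≤ 0 :=
    mul_nonpos_of_nonneg_of_nonpos (by linarith) e3
  have e5 : 0 < A ^ 2 * (A ^ 2 + B ^ 2 + T ^ 2 - A * B * T - 4) := mul_pos (by positivity) hf
  linarith

/-- The traces of `k`, `k h` for an axis crossing its translate. -/
theorem cross_traces {h k : SLZ} (hh : 2 < |h.1.trace|) (hc : AxesCross h (k * h * k⁻¹)) :
    0 < k.1.trace * (k * h).1.trace * h.1.trace - k.1.trace ^ 2 - (k * h).1.trace ^ 2 ∧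
    0 < k.1.trace ^ 2 + (k * h).1.trace ^ 2 + h.1.trace ^ 2 -
      k.1.trace * (k * h).1.trace * h.1.trace - 4 := by
  have h1 := axes_ineq hc hh (by rw [tr_conj]; exact hh)
  rw [tr_conj, tr_comm] at h1
  have h0 : 4 < h.1.trace ^ 2 := by rw [← sq_abs]; nlinarith
  have h2 : (2 * (k.1.trace * (k * h).1.trace * h.1.trace - k.1.trace ^ 2 -
      (k * h).1.trace ^ 2 + 2) - h.1.trace * h.1.trace) ^ 2 < (h.1.trace ^ 2 - 4) ^ 2 := by
    calc _ < _ := h1
      _ = _ := by ring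
  have h3 := abs_lt_of_sq_lt_sq h2 (by linarith)
  rw [abs_lt] at h3
  constructor <;> nlinarith [h3.1, h3.2]

theorem rule5_choice {G : Subgroup SLZ} (hG : IsSurface G) {h g : SLZ} (hh : h ∈ G) (hg : g ∈ G)
    (ht : 2 < |h.1.trace|) (hc : AxesCross h (g * h * g⁻¹)) :
    ∃ k ∈ G, AxesCross h (k * h * k⁻¹) ∧ rho k * rho (k * h) < rho h ∧
      rho (k * k * h) < rho h := by
  -- the traces
  let u : ℤ → ℤ := fun m => (g * h ^ m).1.trace
  have hmem : ∀ m : ℤ, g * h ^ m ∈ G := fun m => G.mul_mem hg (G.zpow_mem hh m)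
  have hcr : ∀ m : ℤ, AxesCross h ((g * h ^ m) * h * (g * h ^ m)⁻¹) := by
    intro m
    have : (g * h ^ m) * h * (g * h ^ m)⁻¹ = g * h * g⁻¹ := by group
    rw [this]; exact hc
  have hsucc : ∀ m : ℤ, g * h ^ m * h = g * h ^ (m + 1) := by
    intro m; rw [_root_.zpow_add_one, mul_assoc]
  have hu2 : ∀ m, 2 ≤ |u m| := fun m => hG.tor _ (hmem m)
  set t := h.1.trace with htdef
  have hct : ∀ m, 0 < u m * u (m + 1) * t - u m ^ 2 - u (m + 1) ^ 2 ∧
      0 < u m ^ 2 + u (m + 1) ^ 2 + t ^ 2 - u m * u (m + 1) * t - 4 := by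
    intro m
    have := cross_traces ht (hcr m)
    rw [hsucc] at this
    exact this
  have hrec : ∀ m, u (m + 2) = t * u (m + 1) - u m := by
    intro m
    have h1 := tr_fricke (g * h ^ (m + 1)) h
    have e1 : g * h ^ (m + 1) * h = g * h ^ (m + 2) := by
      rw [hsucc, show m + 1 + 1 = m + 2 by ring]
    have e2 : g * h ^ (m + 1) * h⁻¹ = g * h ^ m := by group
    rw [e1, e2] at h1
    change u (m + 1) * t = u (m + 2) + u m at h1
    linarith
  -- minimise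
  let f : ℤ → ℕ := fun m => (|u m| + |u (m + 1)|).toNat
  let m := Function.argmin f
  have hmin : ∀ m', |u m| + |u (m + 1)| ≤ |u m'| + |u (m' + 1)| := by
    intro m'
    have h1 : f m ≤ f m' := Function.argmin_le f m'
    have h2 : ∀ x : ℤ, ((f x : ℕ) : ℤ) = |u x| + |u (x + 1)| := by
      intro x; exact Int.toNat_of_nonneg (by positivity)
    rw [← h2, ← h2]; exact_mod_cast h1
  have hA := hu2 m
  have hB := hu2 (m + 1)
  obtain ⟨hc1, hc2⟩ := hct m
  have hpos : 0 < u m * u (m + 1) * t := by nlinarith [sq_nonneg (u m), sq_nonneg (u (m + 1))]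
  have habs : u m * u (m + 1) * t = |u m| * |u (m + 1)| * |t| := by
    rw [← abs_mul, ← abs_mul, abs_of_pos hpos]
  have hfa : 0 < |u m| ^ 2 + |u (m + 1)| ^ 2 + |t| ^ 2 - |u m| * |u (m + 1)| * |t| - 4 := by
    rw [← habs, sq_abs, sq_abs, sq_abs]; exact hc2
  have hfb : |u m| ^ 2 + |u (m + 1)| ^ 2 < |u m| * |u (m + 1)| * |t| := by
    rw [← habs, sq_abs, sq_abs]; linarith
  -- neighbours
  have hnext : |u (m + 2)| = |t| * |u (m + 1)| - |u m| := by
    rw [hrec]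
    have h1 : 0 < (t * u (m + 1)) * u m := by linarith
    have h2 : |u m| < |t * u (m + 1)| := by
      rw [abs_mul]
      by_contra hn
      push Not at hn
      have := mul_le_mul_of_nonneg_right hn (abs_nonneg (u m))
      nlinarith [sq_nonneg (|u (m + 1)|)]
    rw [← abs_mul]
    rcases pos_and_pos_or_neg_and_neg_of_mul_pos h1 with ⟨h3, h4⟩ | ⟨h3, h4⟩
    · rw [abs_of_pos h3, abs_of_pos h4] at *
      exact abs_of_pos (by linarith)
    · rw [abs_of_neg h3, abs_of_neg h4] at *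
      rw [abs_of_neg (by linarith)]; ring
  have hprev : |u (m - 1)| = |t| * |u m| - |u (m + 1)| := by
    have e1 : u (m - 1) = t * u m - u (m + 1) := by
      have := hrec (m - 1)
      rw [show m - 1 + 2 = m + 1 by ring, show m - 1 + 1 = m by ring] at this
      linarith
    rw [e1]
    have h1 : 0 < (t * u m) * u (m + 1) := by linarith
    have h2 : |u (m + 1)| < |t * u m| := by
      rw [abs_mul]
      by_contra hn
      push Not at hn
      have := mul_le_mul_of_nonneg_right hn (abs_nonneg (u (m + 1)))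
      nlinarith [sq_nonneg (|u m|)]
    rw [← abs_mul]
    rcases pos_and_pos_or_neg_and_neg_of_mul_pos h1 with ⟨h3, h4⟩ | ⟨h3, h4⟩
    · rw [abs_of_pos h3, abs_of_pos h4] at *
      exact abs_of_pos (by linarith)
    · rw [abs_of_neg h3, abs_of_neg h4] at *
      rw [abs_of_neg (by linarith)]; ring
  have hm1 : 2 * |u m| ≤ |t| * |u (m + 1)| := by
    have := hmin (m + 1)
    rw [show m + 1 + 1 = m + 2 by ring, hnext] at this
    linarith
  have hm2 : 2 * |u (m + 1)| ≤ |t| * |u m| := by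
    have := hmin (m - 1)
    rw [show m - 1 + 1 = m by ring, hprev] at this
    linarith
  have hmk := markov_ineq hA hB ht hfa hm1 hm2
  -- conclusion
  have hk := hmem m
  have hkh : g * h ^ m * h ∈ G := G.mul_mem hk hh
  have hku : (g * h ^ m).1.trace = u m := rfl
  have hkhu : (g * h ^ m * h).1.trace = u (m + 1) := by rw [hsucc]
  refine ⟨g * h ^ m, hk, hcr m, ?_, ?_⟩
  · have e1 := rho_mul_aux (hG.tor _ hk) (hG.tor _ hkh)
    have e2 := rho_eq (g := h) ht.le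
    have e3 : 1 ≤ rho (g * h ^ m) * rho (g * h ^ m * h) :=
      one_le_mul_of_one_le_of_one_le (rho_ge (hG.tor _ hk)) (rho_ge (hG.tor _ hkh))
    have e4 : 1 ≤ rho h := rho_ge ht.le
    rw [hku, hkhu] at e1
    have e5 : |((u m : ℤ) : ℝ)| * |((u (m + 1) : ℤ) : ℝ)| +
        Real.sqrt (((u m : ℤ) : ℝ) ^ 2 - 4) * Real.sqrt (((u (m + 1) : ℤ) : ℝ) ^ 2 - 4) <
        2 * |((t : ℤ) : ℝ)| := by
      have f1 : |((u m : ℤ) : ℝ)| * |((u (m + 1) : ℤ) : ℝ)| < 2 * |((t : ℤ) : ℝ)| := by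
        exact_mod_cast hmk
      have f2 : Real.sqrt (((u m : ℤ) : ℝ) ^ 2 - 4) ^ 2 = ((u m : ℤ) : ℝ) ^ 2 - 4 := by
        have := sqrt_sq4 (hG.tor _ hk); rw [hku] at this; exact this
      have f3 : Real.sqrt (((u (m + 1) : ℤ) : ℝ) ^ 2 - 4) ^ 2 = ((u (m + 1) : ℤ) : ℝ) ^ 2 - 4 := by
        have := sqrt_sq4 (hG.tor _ hkh); rw [hkhu] at this; exact this
      have f4 : 0 < |((u m : ℤ) : ℝ)| ^ 2 + |((u (m + 1) : ℤ) : ℝ)| ^ 2 + |((t : ℤ) : ℝ)| ^ 2 -
          |((u m : ℤ) : ℝ)| * |((u (m + 1) : ℤ) : ℝ)| * |((t : ℤ) : ℝ)| - 4 := by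
        exact_mod_cast hfa
      have f5 : (Real.sqrt (((u m : ℤ) : ℝ) ^ 2 - 4) * Real.sqrt (((u (m + 1) : ℤ) : ℝ) ^ 2 - 4)) ^ 2 <
          (2 * |((t : ℤ) : ℝ)| - |((u m : ℤ) : ℝ)| * |((u (m + 1) : ℤ) : ℝ)|) ^ 2 := by
        rw [mul_pow, f2, f3, ← sq_abs ((u m : ℤ) : ℝ), ← sq_abs ((u (m + 1) : ℤ) : ℝ)]
        nlinarith
      have f6 := abs_lt_of_sq_lt_sq f5 (by linarith)
      rw [abs_of_nonneg (mul_nonneg (Real.sqrt_nonneg _) (Real.sqrt_nonneg _))] at f6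
      linarith
    by_contra hn
    push Not at hn
    generalize rho (g * h ^ m) * rho (g * h ^ m * h) = y at *
    generalize rho h = r at *
    -- 2 (y^2 + 1) < 2 T y, r^2 + 1 = T r, y >= r >= 1
    have g1 : y ^ 2 + 1 < |((t : ℤ) : ℝ)| * y := by nlinarith
    have g2 : (y ^ 2 + 1) * r < (r ^ 2 + 1) * y := by
      rw [e2]; nlinarith
    nlinarith [mul_nonneg (sub_nonneg.2 hn) (sub_nonneg.2 (one_le_mul_of_one_le_of_one_le e3 e4))]
  · have e1 := tr_fricke (g * h ^ m) (g * h ^ m * h)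
    have e2 : g * h ^ m * (g * h ^ m * h)⁻¹ = (g * h ^ m) * h⁻¹ * (g * h ^ m)⁻¹ := by group
    have e3 : g * h ^ m * (g * h ^ m * h) = g * h ^ m * (g * h ^ m) * h := by group
    rw [e2, e3, tr_conj, tr_inv, hku, hkhu] at e1
    apply rho_lt_of_lt (hG.tor _ (G.mul_mem (G.mul_mem hk hk) hh))
    have e4 : (g * h ^ m * (g * h ^ m) * h).1.trace = u m * u (m + 1) - t := by linarith
    rw [e4, ← htdef]
    rw [← abs_mul] at hmk
    rcases pos_and_pos_or_neg_and_neg_of_mul_pos hpos with ⟨h3, h4⟩ | ⟨h3, h4⟩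
    · rw [abs_of_pos h3, abs_of_pos h4] at hmk
      rw [abs_of_pos h4, abs_lt]; constructor <;> linarith
    · rw [abs_of_neg h3, abs_of_neg h4] at hmk
      rw [abs_of_neg h4, abs_lt]; constructor <;> linarith

theorem rule5 (hnclg : NclgStatement) (hrep : RepStatement) (htr : TraceStatement)
    (hnz : NonzeroStatement) : Rule5Statement := by
  intro G hG e he h g hg hw hax K _ _ L
  obtain ⟨rp⟩ := hrep G K L hG
  have hnz' := hnz G K L hG
  obtain ⟨hh, hht⟩ := hw.mem h (by simp)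
  have hhn := hw.ncl h (by simp)
  obtain ⟨k, hk, hkc, hr1, hr2⟩ := rule5_choice hG hh hg hht hax
  have hn := (hnclg G hG e he).2.1 h hh k hk hht hhn hkc
  let h₁ : G := ⟨h, hh⟩
  let k₁ : G := ⟨k, hk⟩
  have hval : (⟨[], [h]⟩ : Wd).val = rho h := by simp [Wd.val]
  have m1 := list_mem_span htr hnz' hG rp e [k₁, k₁ * h₁] (by
    intro x hx hxt
    rcases List.mem_cons.1 hx with rfl | hx
    · exact hn.1 hxt
    · rw [List.mem_singleton.1 hx] at hxt ⊢
      exact hn.2.1 hxt) ⟨[], [h]⟩ (by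
    rw [hval]; simpa using hr1)
  have m2 := list_mem_span htr hnz' hG rp e [k₁ * k₁ * h₁] (by
    intro x hx hxt
    rw [List.mem_singleton.1 hx] at hxt ⊢
    exact hn.2.2 hxt) ⟨[], [h]⟩ (by
    rw [hval]; simpa using hr2)
  simp only [List.map_cons, List.map_nil, List.prod_cons, List.prod_nil, mul_one] at m1 m2
  have hW : L.W ⟨[], [h]⟩ = L.tr h := by simp [Lam.W]
  rw [hW]
  obtain ⟨s, hs, h1⟩ : ∃ s : ℤ, (s = 1 ∨ s = -1) ∧ (rp.R h₁).1.trace = s * L.tr h := by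
    rcases rep_tr htr hnz' hG rp h₁ with ⟨-, h⟩ | ⟨h, -⟩
    · exact h
    · exact absurd h (ne_of_gt hht)
  have hf := R_fricke rp k₁ (k₁ * h₁)
  have e2 : k₁ * (k₁ * h₁)⁻¹ = k₁ * h₁⁻¹ * k₁⁻¹ := by group
  have e3 : k₁ * (k₁ * h₁) = k₁ * k₁ * h₁ := by group
  have e4 : (rp.R h₁⁻¹).1.trace = (rp.R h₁).1.trace := by
    rw [map_inv]
    simp only [Matrix.trace_fin_two, Matrix.SpecialLinearGroup.coe_inv, Matrix.adjugate_fin_two,
      Matrix.of_apply, Matrix.cons_val', Matrix.cons_val_zero, Matrix.cons_val_one,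
      Matrix.cons_val_fin_one]
    ring
  rw [e2, e3, R_tr_conj, e4, h1] at hf
  have hm := Submodule.sub_mem _ m1 m2
  have e5 : (rp.R k₁).1.trace * (rp.R (k₁ * h₁)).1.trace - (rp.R (k₁ * k₁ * h₁)).1.trace =
      s * L.tr h := by rw [hf]; ring
  rw [e5] at hm
  rcases hs with rfl | rfl
  · simpa using hm
  · have := Submodule.neg_mem _ hm
    simpa using this

end Pool.Agent.Lib.MP_eee7a8_ag.TB.C33
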