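import Pool.Agent.Lib.MP_eee7a8_ag.TB.C33.Push
import Pool.Agent.Lib.MP_eee7a8_ag.TB.C33.Comb

/-!
# TAGBR: SL (helper33)
-/

open Matrix

namespace Pool.Agent.Lib.MP_eee7a8_ag.TB.C33

theorem rel_list {α β : Type*} {r : α → β → Prop} {s : Multiset α} {t : Multiset β}
    (h : Multiset.Rel r s t) : ∃ l : List (α × β), (l.map Prod.fst : Multiset α) = s ∧
      (l.map Prod.snd : Multiset β) = t ∧ ∀ x ∈ l, r x.1 x.2 := by
  induction h with
  | zero => exact ⟨[], rfl, rfl, by simp⟩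
  | @cons a b as bs hab _ ih =>
    obtain ⟨l, h1, h2, h3⟩ := ih
    refine ⟨(a, b) :: l, ?_, ?_, ?_⟩
    · rw [List.map_cons, ← Multiset.cons_coe, h1]
    · rw [List.map_cons, ← Multiset.cons_coe, h2]
    · intro x hx
      rcases List.mem_cons.1 hx with rfl | hx
      · exact hab
      · exact h3 x hx

section

variable {G : Subgroup SLZ} {K : Type} [Field K] [Algebra ℂ K] {L : Lam G K}

theorem int_mem (A : Subalgebra ℂ K) (n : ℤ) : (n : K) ∈ A := by
  have := A.algebraMap_mem (n : ℂ)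
  rwa [map_intCast] at this

theorem lam_mem_RA (L : Lam G K) (a b : Cusp) : L.lam a b ∈ L.RA :=
  Algebra.subset_adjoin (Or.inl ⟨a, b, fun _ _ h => h.elim, rfl⟩)

theorem R_mem_RA (htr : TraceStatement) (hnz : ∀ a b, a ≠ b → L.lam a b ≠ 0) (hG : IsSurface G)
    (rp : Rep L) (g : G) : (rp.R g).1.trace ∈ L.RA := by
  rcases rep_tr htr hnz hG rp g with ⟨h1, s, hs, h2⟩ | ⟨h1, s, hs, h2⟩
  · rw [h2]
    apply L.RA.mul_mem (int_mem _ _)
    exact Algebra.subset_adjoin (Or.inr ⟨g, g.2, h1, fun _ _ h => h.elim, rfl⟩)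
  · rw [h2]
    apply L.RA.mul_mem (int_mem _ _)
    have := int_mem L.RA 2
    simp

/-- Signed lambda lengths up to sign. -/
theorem sl_sign (L : Lam G K) (a b : Cusp) :
    ∃ s : ℤ, s * s = 1 ∧ L.sl a b = s * L.lam a b := by
  by_cases h : a = b
  · refine ⟨1, by norm_num, ?_⟩
    subst h
    unfold Lam.sl
    rw [L.self]; ring
  · exact ⟨Int.sign (dt a b), sign_ne (dt_ne_zero h), rfl⟩

theorem sign_mul_or {s : ℤ} (h : s * s = 1) : s = 1 ∨ s = -1 := by
  have : (s - 1) * (s + 1) = 0 := by linarith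
  rcases mul_eq_zero.1 this with h | h
  · left; linarith
  · right; linarith

/-- First exchange: two factors. -/
theorem exch1 (hpl : PluckerStatement) (L : Lam G K) (s p t₁ t₂ : Cusp) :
    ∃ σ : ℤ, (σ = 1 ∨ σ = -1) ∧ ∃ r ∈ L.RA,
      L.lam p t₁ * L.lam s t₂ = σ * (L.lam s t₁ * L.lam p t₂) + L.lam s p * r := by
  have h := (hpl G K L).1 s t₁ p t₂
  obtain ⟨a1, b1, e1⟩ := sl_sign L s t₁
  obtain ⟨a2, b2, e2⟩ := sl_sign L p t₂
  obtain ⟨a3, b3, e3⟩ := sl_sign L s p
  obtain ⟨a4, b4, e4⟩ := sl_sign L t₁ t₂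
  obtain ⟨a5, b5, e5⟩ := sl_sign L s t₂
  obtain ⟨a6, b6, e6⟩ := sl_sign L t₁ p
  rw [e1, e2, e3, e4, e5, e6] at h
  refine ⟨-(a1 * a2 * a5 * a6), ?_, ((a3 * a4 * a5 * a6 : ℤ) : K) * L.lam t₁ t₂, ?_, ?_⟩
  · apply sign_mul_or
    have : (-(a1 * a2 * a5 * a6)) * (-(a1 * a2 * a5 * a6)) =
      (a1 * a1) * (a2 * a2) * (a5 * a5) * (a6 * a6) := by ring
    rw [this, b1, b2, b5, b6]; norm_num
  · exact L.RA.mul_mem (int_mem _ _) (lam_mem_RA L _ _)
  · have c5 : (a5 : K) * a5 = 1 := by rw [← Int.cast_mul, b5, Int.cast_one]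
    have c6 : (a6 : K) * a6 = 1 := by rw [← Int.cast_mul, b6, Int.cast_one]
    rw [L.symm p t₁]
    push_cast
    linear_combination (a5 * a6 : K) * h - (L.lam t₁ p * L.lam s t₂) * c5 -
      (a5 * a5 * (L.lam t₁ p * L.lam s t₂)) * c6

/-- Second exchange: both ends of one factor. -/
theorem exch2 (htr : TraceStatement) (hpl : PluckerStatement)
    (hnz : ∀ a b, a ≠ b → L.lam a b ≠ 0) (hG : IsSurface G)
    (rp : Rep L) (s p : Cusp) (k : G) :
    ∃ σ : ℤ, (σ = 1 ∨ σ = -1) ∧ ∃ r ∈ L.RA,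
      L.lam p ((k : SLZ) • s) = σ * L.lam s ((k : SLZ) • p) + L.lam s p * r := by
  have h1 : ((eps k p : ℤ) : K) * L.sl s ((k : SLZ) • p) - ((eps k s : ℤ) : K) * L.sl p ((k : SLZ) • s) =
      (rp.R k).1.trace * L.sl s p := by
    have e1 := act0 rp k p
    have e2 := act1 rp k p
    have e3 := act0 rp k s
    have e4 := act1 rp k s
    rw [trR, ← rp.det, ← rp.det, ← rp.det]
    linear_combination (-(rp.W s 0)) * e2 + (rp.W s 1) * e1 + (rp.W p 0) * e4 - (rp.W p 1) * e3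
  obtain ⟨a1, b1, e1⟩ := sl_sign L s ((k : SLZ) • p)
  obtain ⟨a2, b2, e2⟩ := sl_sign L p ((k : SLZ) • s)
  obtain ⟨a3, b3, e3⟩ := sl_sign L s p
  rw [e1, e2, e3] at h1
  have f1 := eps_sq k p
  have f2 := eps_sq k s
  generalize eps k p = c1 at *
  generalize eps k s = c2 at *
  refine ⟨c1 * a1 * c2 * a2, ?_, ((-(a3 * c2 * a2) : ℤ) : K) * (rp.R k).1.trace, ?_, ?_⟩
  · apply sign_mul_or
    have : (c1 * a1 * c2 * a2) * (c1 * a1 * c2 * a2) =
      (c1 * c1) * (a1 * a1) * (c2 * c2) * (a2 * a2) := by ring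
    rw [this, b1, b2, f1, f2]; norm_num
  · exact L.RA.mul_mem (int_mem _ _) (R_mem_RA htr hnz hG rp k)
  · have g2 : (a2 : K) * a2 = 1 := by rw [← Int.cast_mul, b2, Int.cast_one]
    have g3 : (c2 : K) * c2 = 1 := by rw [← Int.cast_mul, f2, Int.cast_one]
    push_cast
    linear_combination (-(c2 * a2 : K)) * h1 - (L.lam p ((k : SLZ) • s)) * g2 -
      (a2 * a2 * L.lam p ((k : SLZ) • s)) * g3

/-- The product of a configuration. -/
noncomputable def WC (L : Lam G K) {n : ℕ} (c : Fin n × Bool → Cusp) : K :=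
  ∏ i, L.lam (c (i, false)) (c (i, true))

theorem fac_bool (L : Lam G K) {n : ℕ} (c : Fin n × Bool → Cusp) (i : Fin n) (b : Bool) :
    L.lam (c (i, false)) (c (i, true)) = L.lam (c (i, b)) (c (i, !b)) := by
  cases b
  · rfl
  · exact L.symm _ _

/-- The relation between configurations. -/
def RC (L : Lam G K) (u v : Cusp) {n : ℕ} (c c' : Fin n × Bool → Cusp) : Prop :=
  ∃ σ : ℤ, (σ = 1 ∨ σ = -1) ∧ ∃ r ∈ L.RA, WC L c' = σ * WC L c + L.lam u v * r

theorem RC_refl (L : Lam G K) (u v : Cusp) {n : ℕ} (c : Fin n × Bool → Cusp) : RC L u v c c :=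
  ⟨1, Or.inl rfl, 0, L.RA.zero_mem, by push_cast; ring⟩

theorem RC_trans (L : Lam G K) (u v : Cusp) {n : ℕ} (c c' c'' : Fin n × Bool → Cusp)
    (h1 : RC L u v c c') (h2 : RC L u v c' c'') : RC L u v c c'' := by
  obtain ⟨s, hs, r, hr, e1⟩ := h1
  obtain ⟨s', hs', r', hr', e2⟩ := h2
  refine ⟨s' * s, ?_, s' * r + r', L.RA.add_mem (L.RA.mul_mem (int_mem _ _) hr) hr', ?_⟩
  · rcases hs with rfl | rfl <;> rcases hs' with rfl | rfl <;> norm_num
  · rw [e2, e1]; push_cast; ring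

theorem RC_ex (htr : TraceStatement) (hpl : PluckerStatement)
    (hnz : ∀ a b, a ≠ b → L.lam a b ≠ 0) (hG : IsSurface G)
    (rp : Rep L) {u v : Cusp} (he : Adm G (some (u, v))) {n : ℕ} (c : Fin n × Bool → Cusp)
    (j j' : Fin n × Bool) (x' y' : Cusp) (hne : j ≠ j') (hA : ∃ g ∈ G, g • u = c j)
    (hB : ∃ g ∈ G, g • v = c j') (h1 : Ge G (some (u, v)) (c j) x')
    (h2 : Ge G (some (u, v)) (c j') y') :
    RC L u v c (Function.update (Function.update c j x') j' y') := by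
  classical
  have huv : ∀ g ∈ G, g • u ≠ v := (he (u, v) rfl).2
  obtain ⟨g, hg, hgu, hgv⟩ : ∃ g ∈ G, g • u = c j ∧ g • v = x' := by
    obtain ⟨p, hp, k, hk, h⟩ := h1
    rw [Option.some.injEq] at hp
    subst hp
    rcases h with ⟨h, h'⟩ | ⟨h, h'⟩
    · exact ⟨k, hk, h, h'⟩
    · exfalso
      obtain ⟨g, hg, hgu⟩ := hA
      apply huv (k⁻¹ * g) (G.mul_mem (G.inv_mem hk) hg)
      rw [mul_smul, hgu, ← h', inv_smul_smul]
  obtain ⟨g', hg', hgv', hgu'⟩ : ∃ g ∈ G, g • v = c j' ∧ g • u = y' := by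
    obtain ⟨p, hp, k, hk, h⟩ := h2
    rw [Option.some.injEq] at hp
    subst hp
    rcases h with ⟨h, h'⟩ | ⟨h, h'⟩
    · exfalso
      obtain ⟨g, hg, hgu⟩ := hB
      apply huv (g⁻¹ * k) (G.mul_mem (G.inv_mem hg) hk)
      change k • u = c j' at h
      rw [mul_smul, h, ← hgu, inv_smul_smul]
    · exact ⟨k, hk, h', h⟩
  have hhG : g * g'⁻¹ ∈ G := G.mul_mem hg (G.inv_mem hg')
  set h := g * g'⁻¹ with hh
  have e1 : h • c j' = x' := by rw [hh, mul_smul, ← hgv', inv_smul_smul, hgv]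
  have e2 : h • y' = c j := by rw [hh, mul_smul, ← hgu', inv_smul_smul, hgu]
  have e3 : L.lam (c j) x' = L.lam u v := by rw [← hgu, ← hgv, L.inv g hg]
  set c' := Function.update (Function.update c j x') j' y' with hc'
  have f1 : c' j' = y' := by rw [hc', Function.update_self]
  have f2 : c' j = x' := by rw [hc', Function.update_of_ne hne, Function.update_self]
  have f3 : ∀ i, i ≠ j → i ≠ j' → c' i = c i := by
    intro i hi hi'
    rw [hc', Function.update_of_ne hi', Function.update_of_ne hi]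
  obtain ⟨i, b⟩ := j
  obtain ⟨i', b'⟩ := j'
  by_cases hii : i = i'
  · subst hii
    have hb : b' = !b := by
      cases b <;> cases b' <;> simp_all
    subst hb
    -- one factor
    have hw : ∀ c : Fin n × Bool → Cusp, WC L c = L.lam (c (i, b)) (c (i, !b)) *
        ∏ k ∈ Finset.univ.erase i, L.lam (c (k, false)) (c (k, true)) := by
      intro c
      unfold WC
      rw [← Finset.mul_prod_erase _ _ (Finset.mem_univ i), fac_bool L c i b]
    have hrest : ∏ k ∈ Finset.univ.erase i, L.lam (c' (k, false)) (c' (k, true)) =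
        ∏ k ∈ Finset.univ.erase i, L.lam (c (k, false)) (c (k, true)) := by
      apply Finset.prod_congr rfl
      intro k hk
      have hk' := Finset.ne_of_mem_erase hk
      rw [f3 _ (fun h => hk' (congrArg Prod.fst h)) (fun h => hk' (congrArg Prod.fst h)),
        f3 _ (fun h => hk' (congrArg Prod.fst h)) (fun h => hk' (congrArg Prod.fst h))]
    have hre : ∏ k ∈ Finset.univ.erase i, L.lam (c (k, false)) (c (k, true)) ∈ L.RA :=
      Subalgebra.prod_mem _ (fun k _ => lam_mem_RA L _ _)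
    obtain ⟨σ, hσ, r, hr, er⟩ := exch2 htr hpl hnz hG rp (c (i, b)) x' ⟨h⁻¹, G.inv_mem hhG⟩
    refine ⟨σ, hσ, r * ∏ k ∈ Finset.univ.erase i, L.lam (c (k, false)) (c (k, true)),
      L.RA.mul_mem hr hre, ?_⟩
    rw [hw c, hw c', hrest, f1, f2]
    have k1 : (h⁻¹ : SLZ) • c (i, b) = y' := by rw [← e2, inv_smul_smul]
    have k2 : (h⁻¹ : SLZ) • x' = c (i, !b) := by rw [← e1, inv_smul_smul]
    change L.lam x' ((h⁻¹ : SLZ) • c (i, b)) = _ * L.lam (c (i, b)) ((h⁻¹ : SLZ) • x') + _ at er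
    rw [k1, k2, e3] at er
    rw [er]; ring
  · have hw : ∀ c : Fin n × Bool → Cusp, WC L c = L.lam (c (i, b)) (c (i, !b)) *
        (L.lam (c (i', b')) (c (i', !b')) *
        ∏ k ∈ (Finset.univ.erase i).erase i', L.lam (c (k, false)) (c (k, true))) := by
      intro c
      unfold WC
      rw [← Finset.mul_prod_erase _ _ (Finset.mem_univ i), fac_bool L c i b,
        ← Finset.mul_prod_erase _ _ (Finset.mem_erase.2 ⟨fun h => hii h.symm, Finset.mem_univ i'⟩),
        fac_bool L c i' b']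
    have hrest : ∏ k ∈ (Finset.univ.erase i).erase i', L.lam (c' (k, false)) (c' (k, true)) =
        ∏ k ∈ (Finset.univ.erase i).erase i', L.lam (c (k, false)) (c (k, true)) := by
      apply Finset.prod_congr rfl
      intro k hk
      have hk' := Finset.ne_of_mem_erase hk
      have hk'' := Finset.ne_of_mem_erase (Finset.mem_of_mem_erase hk)
      rw [f3 _ (fun h => hk'' (congrArg Prod.fst h)) (fun h => hk' (congrArg Prod.fst h)),
        f3 _ (fun h => hk'' (congrArg Prod.fst h)) (fun h => hk' (congrArg Prod.fst h))]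
    have hre : ∏ k ∈ (Finset.univ.erase i).erase i', L.lam (c (k, false)) (c (k, true)) ∈ L.RA :=
      Subalgebra.prod_mem _ (fun k _ => lam_mem_RA L _ _)
    have g1 : c' (i, !b) = c (i, !b) := by
      apply f3
      · intro h; have := congrArg Prod.snd h; cases b <;> simp at this
      · intro h; exact hii (congrArg Prod.fst h)
    have g2 : c' (i', !b') = c (i', !b') := by
      apply f3
      · intro h; exact hii (congrArg Prod.fst h).symm
      · intro h; have := congrArg Prod.snd h; cases b' <;> simp at this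
    obtain ⟨σ, hσ, r, hr, er⟩ := exch1 hpl L (c (i, b)) x' (c (i, !b)) (h • c (i', !b'))
    refine ⟨σ, hσ, r * ∏ k ∈ (Finset.univ.erase i).erase i', L.lam (c (k, false)) (c (k, true)),
      L.RA.mul_mem hr hre, ?_⟩
    rw [hw c, hw c', hrest, f1, f2, g1, g2]
    have k1 : L.lam (c (i', b')) (c (i', !b')) = L.lam x' (h • c (i', !b')) := by
      rw [← e1, L.inv h hhG]
    have k2 : L.lam y' (c (i', !b')) = L.lam (c (i, b)) (h • c (i', !b')) := by
      rw [← e2, L.inv h hhG]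
    rw [k1, k2]
    rw [e3] at er
    linear_combination (∏ k ∈ (Finset.univ.erase i).erase i', L.lam (c (k, false)) (c (k, true))) * er

theorem sl (hpl : PluckerStatement) (hrep : RepStatement) (htr : TraceStatement)
    (hnz : NonzeroStatement) : SlStatement := by
  classical
  intro G K _ _ L hG u v he β γ hsl hdeg hu hv
  obtain ⟨rp⟩ := hrep G K L hG
  have hnz' := hnz G K L hG
  obtain ⟨hs1, hs2⟩ := hsl
  -- loops
  have hloops : (β.loops.map (fun l => tk (L.tr l.1) l.2)).prod =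
      (γ.loops.map (fun l => tk (L.tr l.1) l.2)).prod := by
    obtain ⟨l, h1, h2, h3⟩ := rel_list hs2
    have e1 : (β.loops.map (fun l => tk (L.tr l.1) l.2)).prod =
        (l.map (fun x => tk (L.tr x.1.1) x.1.2)).prod := by
      rw [← Multiset.prod_coe, ← Multiset.map_coe, ← h1, Multiset.map_coe, Multiset.prod_coe,
        List.map_map]
      rfl
    have e2 : (γ.loops.map (fun l => tk (L.tr l.1) l.2)).prod =
        (l.map (fun x => tk (L.tr x.2.1) x.2.2)).prod := by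
      rw [← Multiset.prod_coe, ← Multiset.map_coe, ← h2, Multiset.map_coe, Multiset.prod_coe,
        List.map_map]
      rfl
    rw [e1, e2]
    congr 1
    apply List.map_congr_left
    intro x hx
    have hx1 : x.1 ∈ β.loops := by
      have : x.1 ∈ (β.loops : Multiset (SLZ × ℕ)) := by
        rw [← h1]; exact Multiset.mem_coe.2 (List.mem_map_of_mem hx)
      exact Multiset.mem_coe.1 this
    have hx2 : x.2 ∈ γ.loops := by
      have : x.2 ∈ (γ.loops : Multiset (SLZ × ℕ)) := by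
        rw [← h2]; exact Multiset.mem_coe.2 (List.mem_map_of_mem hx)
      exact Multiset.mem_coe.1 this
    have l1 := (β.loop _ hx1).1
    have l2 := (γ.loop _ hx2).1
    obtain ⟨h4, g, hg, h5⟩ := h3 x hx
    have t1 := (htr G K L hG _ l1.mem l1.hyp).2.2.2.1 g hg
    obtain ⟨-, -, -, -, t2, t3, -⟩ := htr G K L hG _ l2.mem l2.hyp
    have t4 := (htr G K L hG _ (G.inv_mem l2.mem) (by rw [tr_inv]; exact l2.hyp)).2.2.2.2.1
    have : L.tr x.1.1 = L.tr x.2.1 := by
      rw [← t1]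
      rcases h5 with h | h | h | h
      · rw [h]
      · rw [h, t2]
      · rw [h, t3]
      · rw [h, t4, t3]
    rw [this, h4]
  -- arcs
  obtain ⟨l, h1, h2, h3⟩ := rel_list hs1
  set n := l.length with hn
  have harc : ∀ (f : Cusp × Cusp → K), (β.arcs.map f).prod = ∏ i : Fin n, f l[i.1].1 := by
    intro f
    rw [← Multiset.prod_coe, ← Multiset.map_coe, ← h1, Multiset.map_coe, Multiset.prod_coe,
      List.map_map]
    exact (Fin.prod_univ_fun_getElem l (f ∘ Prod.fst)).symm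
  have harc' : ∀ (f : Cusp × Cusp → K), (γ.arcs.map f).prod = ∏ i : Fin n, f l[i.1].2 := by
    intro f
    rw [← Multiset.prod_coe, ← Multiset.map_coe, ← h2, Multiset.map_coe, Multiset.prod_coe,
      List.map_map]
    exact (Fin.prod_univ_fun_getElem l (f ∘ Prod.snd)).symm
  have hch : ∀ i : Fin n, ∃ (g : SLZ) (a b : Cusp), g ∈ G ∧ Sim G (some (u, v)) (g • l[i.1].1.1) a ∧
      Sim G (some (u, v)) (g • l[i.1].1.2) b ∧
      ((a = l[i.1].2.1 ∧ b = l[i.1].2.2) ∨ (a = l[i.1].2.2 ∧ b = l[i.1].2.1)) := by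
    intro i
    obtain ⟨g, hg, h⟩ := h3 l[i.1] (List.getElem_mem _)
    rcases h with ⟨e1, e2⟩ | ⟨e1, e2⟩
    · exact ⟨g, _, _, hg, e1, e2, Or.inl ⟨rfl, rfl⟩⟩
    · exact ⟨g, _, _, hg, e1, e2, Or.inr ⟨rfl, rfl⟩⟩
  choose g a b hg hsa hsb hab using hch
  let c₀ : Fin n × Bool → Cusp := fun j => if j.2 then g j.1 • l[j.1.1].1.2 else g j.1 • l[j.1.1].1.1
  let c₁ : Fin n × Bool → Cusp := fun j => if j.2 then b j.1 else a j.1
  have hW0 : WC L c₀ = (β.arcs.map (fun p => L.lam p.1 p.2)).prod := by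
    rw [harc]
    apply Finset.prod_congr rfl
    intro i _
    exact L.inv _ (hg i) _ _
  have hW1 : WC L c₁ = (γ.arcs.map (fun p => L.lam p.1 p.2)).prod := by
    rw [harc']
    apply Finset.prod_congr rfl
    intro i _
    change L.lam (a i) (b i) = _
    rcases hab i with ⟨e1, e2⟩ | ⟨e1, e2⟩
    · rw [e1, e2]
    · rw [e1, e2, L.symm]
  -- degrees
  have hcnt : ∀ z : Cusp, ((cnt (fun x => ∃ g ∈ G, g • z = x) c₀ : ℕ) : ℤ) = β.deg z := by
    intro z
    have e0 : β.deg z = ∑ i : Fin n, ends G l[i.1].1.1 l[i.1].1.2 z := by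
      unfold Sys.deg
      rw [← Multiset.sum_coe, ← Multiset.map_coe, ← h1, Multiset.map_coe, Multiset.sum_coe,
        List.map_map, ← Fin.sum_univ_fun_getElem, Finset.sum_apply]
      rfl
    rw [e0]
    unfold cnt
    rw [Fintype.sum_prod_type]
    push_cast
    apply Finset.sum_congr rfl
    intro i _
    rw [Fintype.sum_bool]
    unfold ends
    have k : ∀ x : Cusp, (∃ k ∈ G, k • z = g i • x) ↔ ∃ k ∈ G, k • z = x := by
      intro x
      constructor
      · rintro ⟨k, hk, h⟩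
        exact ⟨(g i)⁻¹ * k, G.mul_mem (G.inv_mem (hg i)) hk, by rw [mul_smul, h, inv_smul_smul]⟩
      · rintro ⟨k, hk, h⟩
        exact ⟨g i * k, G.mul_mem (hg i) hk, by rw [mul_smul, h]⟩
    change ((if ∃ k ∈ G, k • z = g i • l[i.1].1.2 then (1 : ℤ) else 0)) +
      (if ∃ k ∈ G, k • z = g i • l[i.1].1.1 then (1 : ℤ) else 0) = _
    rw [add_comm]
    congr 1
    · exact if_congr (k _) rfl rfl
    · exact if_congr (k _) rfl rfl
  have hcnt' : ∀ z : Cusp, ((cnt (fun x => ∃ g ∈ G, g • z = x) c₁ : ℕ) : ℤ) = γ.deg z := by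
    intro z
    have e0 : γ.deg z = ∑ i : Fin n, ends G l[i.1].2.1 l[i.1].2.2 z := by
      unfold Sys.deg
      rw [← Multiset.sum_coe, ← Multiset.map_coe, ← h2, Multiset.map_coe, Multiset.sum_coe,
        List.map_map, ← Fin.sum_univ_fun_getElem, Finset.sum_apply]
      rfl
    rw [e0]
    unfold cnt
    rw [Fintype.sum_prod_type]
    push_cast
    apply Finset.sum_congr rfl
    intro i _
    rw [Fintype.sum_bool]
    unfold ends
    change ((if ∃ k ∈ G, k • z = b i then (1 : ℤ) else 0)) +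
      (if ∃ k ∈ G, k • z = a i then (1 : ℤ) else 0) = _
    rcases hab i with ⟨e1, e2⟩ | ⟨e1, e2⟩
    · rw [add_comm, e1, e2]
    · rw [e1, e2]
  -- walks
  have hsym : ∀ x y, Ge G (some (u, v)) x y → Ge G (some (u, v)) y x := fun x y h => Ge_symm h
  have hwalk : ∀ j, ∃ m, Walk (Ge G (some (u, v))) m (c₀ j) (c₁ j) := by
    rintro ⟨i, b'⟩
    cases b'
    · exact exists_walk hsym (hsa i)
    · exact exists_walk hsym (hsb i)
  choose m hm using hwalk
  have huv : ∀ g ∈ G, g • u ≠ v := (he (u, v) rfl).2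
  have hex : ∀ z : Cusp, 1 ≤ γ.deg z → ∃ j, ∃ g ∈ G, g • z = c₁ j := by
    intro z hz
    by_contra hn
    push Not at hn
    have : cnt (fun x => ∃ g ∈ G, g • z = x) c₁ = 0 := by
      unfold cnt
      apply Finset.sum_eq_zero
      intro j _
      rw [if_neg]
      rintro ⟨g, hg, h⟩
      exact hn j g hg h
    rw [← hcnt' z, this] at hz
    norm_num at hz
  have key := comb (J := Fin n × Bool) (E := Ge G (some (u, v))) (A := fun x => ∃ g ∈ G, g • u = x)
    (B := fun x => ∃ g ∈ G, g • v = x) (by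
      rintro x y ⟨p, hp, k, hk, h⟩
      rw [Option.some.injEq] at hp
      subst hp
      rcases h with ⟨h, h'⟩ | ⟨h, h'⟩
      · left; exact ⟨⟨k, hk, h⟩, ⟨k, hk, h'⟩⟩
      · right; exact ⟨⟨k, hk, h'⟩, ⟨k, hk, h⟩⟩) hsym (by
      rintro x ⟨k, hk, h⟩ ⟨k', hk', h'⟩
      apply huv (k'⁻¹ * k) (G.mul_mem (G.inv_mem hk') hk)
      rw [mul_smul, h, ← h', inv_smul_smul]) (by
      rintro x ⟨k, hk, rfl⟩
      exact ⟨k • v, (u, v), rfl, k, hk, Or.inl ⟨rfl, rfl⟩⟩) (by
      rintro x ⟨k, hk, rfl⟩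
      exact ⟨k • u, (u, v), rfl, k, hk, Or.inr ⟨rfl, rfl⟩⟩) (RC L u v) (RC_refl L u v)
    (RC_trans L u v) (fun c j j' x' y' hne hA hB h1 h2 =>
      RC_ex htr hpl hnz' hG rp he c j j' x' y' hne hA hB h1 h2) _ c₀ c₁ m hm rfl (by
      have e1 := hcnt u
      have e2 := hcnt' u
      rw [hdeg] at e1
      exact_mod_cast e1.trans e2.symm) (by
      have e1 := hcnt v
      have e2 := hcnt' v
      rw [hdeg] at e1
      exact_mod_cast e1.trans e2.symm) (hex u (by rw [← hdeg]; exact hu))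
      (hex v (by rw [← hdeg]; exact hv))
  obtain ⟨σ, hσ, r, hr, e⟩ := key
  rw [hW0, hW1] at e
  have hT : (γ.loops.map (fun l => tk (L.tr l.1) l.2)).prod ∈ L.RA := by
    apply Subalgebra.list_prod_mem
    intro x hx
    obtain ⟨l, hl, rfl⟩ := List.mem_map.1 hx
    have l2 := (γ.loop _ hl).1
    have ht : L.tr l.1 ∈ L.RA :=
      Algebra.subset_adjoin (Or.inr ⟨l.1, l2.mem, l2.hyp, fun _ _ h => h.elim, rfl⟩)
    have htk : ∀ k : ℕ, tk (L.tr l.1) k ∈ L.RA ∧ tk (L.tr l.1) (k + 1) ∈ L.RA := by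
      intro k
      induction k with
      | zero =>
        refine ⟨?_, ht⟩
        have := int_mem L.RA 2
        simpa [tk] using this
      | succ k ih =>
        exact ⟨ih.2, L.RA.sub_mem (L.RA.mul_mem ht ih.2) ih.1⟩
    exact (htk l.2).1
  refine ⟨σ, hσ, r * (γ.loops.map (fun l => tk (L.tr l.1) l.2)).prod, L.RA.mul_mem hr hT, ?_⟩
  unfold Lam.IS
  rw [e, hloops]; ring

end

end Pool.Agent.Lib.MP_eee7a8_ag.TB.C33
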