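import Pool.Agent.Lib.MP_eee7a8_ag.TB.Iface3

/-!
# TAGBR (helper33): traces, spectral radii, crossing axes, traces of the representation
-/

open Matrix

namespace Pool.Agent.Lib.MP_eee7a8_ag.TB.C33

theorem tr2 (h : SLZ) : h.1.trace = h.1 0 0 + h.1 1 1 := Matrix.trace_fin_two _

theorem mul00 (g h : SLZ) : (g * h).1 0 0 = g.1 0 0 * h.1 0 0 + g.1 0 1 * h.1 1 0 := by
  simp [Matrix.SpecialLinearGroup.coe_mul, Matrix.mul_apply, Fin.sum_univ_two]
theorem mul01 (g h : SLZ) : (g * h).1 0 1 = g.1 0 0 * h.1 0 1 + g.1 0 1 * h.1 1 1 := by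
  simp [Matrix.SpecialLinearGroup.coe_mul, Matrix.mul_apply, Fin.sum_univ_two]
theorem mul10 (g h : SLZ) : (g * h).1 1 0 = g.1 1 0 * h.1 0 0 + g.1 1 1 * h.1 1 0 := by
  simp [Matrix.SpecialLinearGroup.coe_mul, Matrix.mul_apply, Fin.sum_univ_two]
theorem mul11 (g h : SLZ) : (g * h).1 1 1 = g.1 1 0 * h.1 0 1 + g.1 1 1 * h.1 1 1 := by
  simp [Matrix.SpecialLinearGroup.coe_mul, Matrix.mul_apply, Fin.sum_univ_two]
theorem inv00 (g : SLZ) : (g⁻¹).1 0 0 = g.1 1 1 := by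
  rw [Matrix.SpecialLinearGroup.coe_inv, Matrix.adjugate_fin_two]; rfl
theorem inv01 (g : SLZ) : (g⁻¹).1 0 1 = -g.1 0 1 := by
  rw [Matrix.SpecialLinearGroup.coe_inv, Matrix.adjugate_fin_two]; rfl
theorem inv10 (g : SLZ) : (g⁻¹).1 1 0 = -g.1 1 0 := by
  rw [Matrix.SpecialLinearGroup.coe_inv, Matrix.adjugate_fin_two]; rfl
theorem inv11 (g : SLZ) : (g⁻¹).1 1 1 = g.1 0 0 := by
  rw [Matrix.SpecialLinearGroup.coe_inv, Matrix.adjugate_fin_two]; rfl

theorem tr_conj (g h : SLZ) : (g * h * g⁻¹).1.trace = h.1.trace := by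
  rw [Matrix.SpecialLinearGroup.coe_mul, Matrix.trace_mul_comm,
    ← Matrix.SpecialLinearGroup.coe_mul, inv_mul_cancel_left]

theorem tr_inv (h : SLZ) : (h⁻¹).1.trace = h.1.trace := by
  rw [tr2, tr2, inv00, inv11]; ring

/-- Fricke: `tr g tr h = tr (g h) + tr (g h⁻¹)`. -/
theorem tr_fricke (g h : SLZ) :
    g.1.trace * h.1.trace = (g * h).1.trace + (g * h⁻¹).1.trace := by
  rw [tr2, tr2, tr2, tr2, mul00, mul11, mul00, mul11, inv00, inv01, inv10, inv11]; ring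

theorem tr_mul_comm (g h : SLZ) : (g * h).1.trace = (h * g).1.trace := by
  rw [Matrix.SpecialLinearGroup.coe_mul, Matrix.trace_mul_comm, ← Matrix.SpecialLinearGroup.coe_mul]

theorem tr_sq (g : SLZ) : (g * g).1.trace = g.1.trace ^ 2 - 2 := by
  have h1 := tr_fricke g g
  rw [mul_inv_cancel] at h1
  have h2 : (1 : SLZ).1.trace = 2 := by simp [Matrix.SpecialLinearGroup.coe_one]
  rw [h2] at h1
  linarith

/-- The trace of `h * (g h g⁻¹)`. -/
theorem tr_comm (g h : SLZ) :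
    (h * (g * h * g⁻¹)).1.trace = g.1.trace * (g * h).1.trace * h.1.trace - g.1.trace ^ 2 -
      (g * h).1.trace ^ 2 + 2 := by
  have h1 := tr_fricke (h * g) (h * g⁻¹)
  have h2 : (h * g) * (h * g⁻¹)⁻¹ = h * (g * g) * h⁻¹ := by group
  have h3 : (h * g) * (h * g⁻¹) = h * (g * h * g⁻¹) := by group
  rw [h2, h3, tr_conj, tr_sq, tr_mul_comm h g] at h1
  have h4 := tr_fricke h g
  rw [tr_mul_comm h g] at h4
  have h5 : (h * g⁻¹).1.trace = h.1.trace * g.1.trace - (g * h).1.trace := by linarith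
  rw [h5] at h1
  linarith

/-- Semidefinite binary forms have constant sign. -/
theorem semidef {p q r x y x' y' : ℤ} (hd : q ^ 2 - 4 * p * r ≤ 0) :
    0 ≤ (p * x ^ 2 + q * x * y + r * y ^ 2) * (p * x' ^ 2 + q * x' * y' + r * y' ^ 2) := by
  have key : ∀ x y : ℤ, 0 ≤ p * (p * x ^ 2 + q * x * y + r * y ^ 2) := by
    intro x y
    have : 4 * (p * (p * x ^ 2 + q * x * y + r * y ^ 2)) =
      (2 * p * x + q * y) ^ 2 + (4 * p * r - q ^ 2) * y ^ 2 := by ring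
    nlinarith [sq_nonneg (2 * p * x + q * y), mul_nonneg (show 0 ≤ 4 * p * r - q ^ 2 by linarith)
      (sq_nonneg y)]
  rcases eq_or_ne p 0 with hp | hp
  · subst hp
    have hq : q = 0 := by nlinarith [sq_nonneg q]
    subst hq
    have : (0 * x ^ 2 + 0 * x * y + r * y ^ 2) * (0 * x' ^ 2 + 0 * x' * y' + r * y' ^ 2) =
      (r * y * y') ^ 2 := by ring
    rw [this]; positivity
  · have h1 := mul_nonneg (key x y) (key x' y')
    have h2 : 0 < p * p := mul_self_pos.2 hp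
    by_contra hn
    push Not at hn
    nlinarith [mul_pos_of_neg_of_neg (show -(p * p) < 0 by linarith) hn]

/-- Crossing axes: the trace of the product. -/
theorem axes_ineq {h k : SLZ} (H : AxesCross h k) (hh : 2 < |h.1.trace|) (hk : 2 < |k.1.trace|) :
    (2 * (h * k).1.trace - h.1.trace * k.1.trace) ^ 2 <
      (h.1.trace ^ 2 - 4) * (k.1.trace ^ 2 - 4) := by
  obtain ⟨⟨a1, ha1, hb1⟩, ⟨a2, ha2, hb2⟩, ⟨a3, ha3, hb3⟩, ⟨a4, ha4, hb4⟩⟩ := H
  have eh := det_eq h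
  have ek := det_eq k
  have hD : 0 < h.1.trace ^ 2 - 4 := by
    have := sq_abs h.1.trace
    nlinarith
  have hD' : 0 < k.1.trace ^ 2 - 4 := by
    have := sq_abs k.1.trace
    nlinarith
  unfold side at ha1 hb1 ha2 hb2 ha3 hb3 ha4 hb4
  rw [tr2] at hD hD'
  simp only [tr2, mul00, mul11]
  generalize h.1 0 0 = a at *
  generalize h.1 0 1 = b at *
  generalize h.1 1 0 = c at *
  generalize h.1 1 1 = d at *
  generalize k.1 0 0 = a' at *
  generalize k.1 0 1 = b' at *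
  generalize k.1 1 0 = c' at *
  generalize k.1 1 1 = d' at *
  by_contra hn
  push Not at hn
  set B : ℤ := (d - a) * (d' - a') + 2 * (b * c' + c * b') with hB
  set D : ℤ := (a + d) ^ 2 - 4 with hDd
  set D' : ℤ := (a' + d') ^ 2 - 4 with hDd'
  have e1 : 2 * (a * a' + b * c' + (c * b' + d * d')) - (a + d) * (a' + d') = B := by
    rw [hB]; ring
  rw [e1] at hn
  have e2 : D = (d - a) ^ 2 + 4 * b * c := by rw [hDd]; linear_combination 4 * eh
  have e3 : D' = (d' - a') ^ 2 + 4 * b' * c' := by rw [hDd']; linear_combination 4 * ek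
  -- the form D' Q - B Q'
  have hdisc : (D' * (d - a) - B * (d' - a')) ^ 2 -
      4 * (D' * c - B * c') * (D' * (-b) - B * (-b')) ≤ 0 := by
    have : (D' * (d - a) - B * (d' - a')) ^ 2 -
      4 * (D' * c - B * c') * (D' * (-b) - B * (-b')) = D' * (D * D' - B ^ 2) := by
      have e4 : D' ^ 2 * ((d - a) ^ 2 + 4 * b * c) = D' ^ 2 * D := by rw [e2]
      have e5 : B ^ 2 * ((d' - a') ^ 2 + 4 * b' * c') = B ^ 2 * D' := by rw [← e3]
      have e6 : D' * B * ((d - a) * (d' - a') + 2 * (b * c' + c * b')) = D' * B * B := by rw [← hB]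
      linear_combination e4 + e5 - 2 * e6
    rw [this]
    exact mul_nonpos_of_nonneg_of_nonpos hD'.le (by linarith)
  have sd := fun x y x' y' : ℤ => @semidef (D' * c - B * c') (D' * (d - a) - B * (d' - a'))
    (D' * (-b) - B * (-b')) x y x' y' hdisc
  have key : ∀ x y : ℤ, (D' * c - B * c') * x ^ 2 + (D' * (d - a) - B * (d' - a')) * x * y +
      (D' * (-b) - B * (-b')) * y ^ 2 =
      D' * (x * (c * x + d * y) - y * (a * x + b * y)) -
        B * (x * (c' * x + d' * y) - y * (a' * x + b' * y)) := by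
    intro x y; ring
  rcases le_or_gt 0 B with hB0 | hB0
  · have h1 := sd a2.x a2.y a3.x a3.y
    rw [key, key] at h1
    have p1 := mul_pos hD' ha2
    have p2 := mul_nonpos_of_nonneg_of_nonpos hB0 hb2.le
    have p3 := mul_pos hD' (neg_pos.2 ha3)
    have p4 := mul_nonneg hB0 hb3.le
    have q1 : 0 < D' * (a2.x * (c * a2.x + d * a2.y) - a2.y * (a * a2.x + b * a2.y)) -
        B * (a2.x * (c' * a2.x + d' * a2.y) - a2.y * (a' * a2.x + b' * a2.y)) := by linarith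
    have q2 : D' * (a3.x * (c * a3.x + d * a3.y) - a3.y * (a * a3.x + b * a3.y)) -
        B * (a3.x * (c' * a3.x + d' * a3.y) - a3.y * (a' * a3.x + b' * a3.y)) < 0 := by linarith
    linarith [mul_neg_of_pos_of_neg q1 q2]
  · have h1 := sd a1.x a1.y a4.x a4.y
    rw [key, key] at h1
    have p1 := mul_pos hD' ha1
    have p2 := mul_pos (neg_pos.2 hB0) hb1
    have p3 := mul_pos hD' (neg_pos.2 ha4)
    have p4 := mul_pos_of_neg_of_neg hB0 hb4
    have q1 : 0 < D' * (a1.x * (c * a1.x + d * a1.y) - a1.y * (a * a1.x + b * a1.y)) -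
        B * (a1.x * (c' * a1.x + d' * a1.y) - a1.y * (a' * a1.x + b' * a1.y)) := by linarith
    have q2 : D' * (a4.x * (c * a4.x + d * a4.y) - a4.y * (a * a4.x + b * a4.y)) -
        B * (a4.x * (c' * a4.x + d' * a4.y) - a4.y * (a' * a4.x + b' * a4.y)) < 0 := by linarith
    linarith [mul_neg_of_pos_of_neg q1 q2]

/-! ## Spectral radii -/

theorem rho_ge {g : SLZ} (hg : 2 ≤ |g.1.trace|) : 1 ≤ rho g := by
  unfold rho
  have h1 : (2 : ℝ) ≤ |((g.1.trace : ℤ) : ℝ)| := by exact_mod_cast hg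
  have h2 := Real.sqrt_nonneg (((g.1.trace : ℤ) : ℝ) ^ 2 - 4)
  linarith

theorem rho_pos {g : SLZ} (hg : 2 ≤ |g.1.trace|) : 0 < rho g := lt_of_lt_of_le one_pos (rho_ge hg)

theorem rho_gt {g : SLZ} (hg : 2 < |g.1.trace|) : 1 < rho g := by
  unfold rho
  have h1 : (2 : ℝ) < |((g.1.trace : ℤ) : ℝ)| := by exact_mod_cast hg
  have h2 := Real.sqrt_nonneg (((g.1.trace : ℤ) : ℝ) ^ 2 - 4)
  linarith

theorem rho_two {g : SLZ} (hg : |g.1.trace| = 2) : rho g = 1 := by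
  unfold rho
  have h1 : |((g.1.trace : ℤ) : ℝ)| = 2 := by exact_mod_cast hg
  have h2 : ((g.1.trace : ℤ) : ℝ) ^ 2 - 4 = 0 := by
    rw [← sq_abs, h1]; norm_num
  rw [h1, h2, Real.sqrt_zero]; norm_num

theorem sqrt_sq4 {g : SLZ} (hg : 2 ≤ |g.1.trace|) :
    Real.sqrt (((g.1.trace : ℤ) : ℝ) ^ 2 - 4) ^ 2 = ((g.1.trace : ℤ) : ℝ) ^ 2 - 4 := by
  apply Real.sq_sqrt
  have h1 : (2 : ℝ) ≤ |((g.1.trace : ℤ) : ℝ)| := by exact_mod_cast hg
  rw [← sq_abs]; nlinarith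

theorem rho_eq {g : SLZ} (hg : 2 ≤ |g.1.trace|) :
    rho g ^ 2 + 1 = |((g.1.trace : ℤ) : ℝ)| * rho g := by
  have h1 := sqrt_sq4 hg
  unfold rho
  have h2 := sq_abs ((g.1.trace : ℤ) : ℝ)
  nlinarith

/-- `rho g < y` if `|tr g| < y + 1/y`. -/
theorem rho_lt {g : SLZ} (hg : 2 ≤ |g.1.trace|) {y : ℝ} (hy : 1 ≤ y)
    (h : |((g.1.trace : ℤ) : ℝ)| * y < y ^ 2 + 1) : rho g < y := by
  by_contra hn
  push Not at hn
  have h1 := rho_eq hg
  have h2 := rho_ge hg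
  have h3 : 0 < rho g := rho_pos hg
  have h4 : |((g.1.trace : ℤ) : ℝ)| * (y * rho g) < (y ^ 2 + 1) * rho g := by nlinarith
  have h5 : |((g.1.trace : ℤ) : ℝ)| * (y * rho g) = (rho g ^ 2 + 1) * y := by rw [h1]; ring
  nlinarith [mul_nonneg (sub_nonneg.2 hn) (sub_nonneg.2 (one_le_mul_of_one_le_of_one_le h2 hy))]

theorem rho_lt_of_lt {g h : SLZ} (hg : 2 ≤ |g.1.trace|) (hh : |g.1.trace| < |h.1.trace|) :
    rho g < rho h := by
  have h0 : 2 ≤ |h.1.trace| := le_trans hg hh.le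
  apply rho_lt hg (rho_ge h0)
  rw [rho_eq h0]
  have : |((g.1.trace : ℤ) : ℝ)| < |((h.1.trace : ℤ) : ℝ)| := by exact_mod_cast hh
  exact mul_lt_mul_of_pos_right this (rho_pos h0)

/-- If `(2 |tr x| - |tr g| |tr h|)^2 < (tr g^2 - 4) (tr h^2 - 4)` or `2 |tr x| ≤ |tr g| |tr h|` then
`rho x < rho g rho h`. -/
theorem rho_mul_aux {g h : SLZ} (hg : 2 ≤ |g.1.trace|) (hh : 2 ≤ |h.1.trace|) :
    2 * ((rho g * rho h) ^ 2 + 1) = (|((g.1.trace : ℤ) : ℝ)| * |((h.1.trace : ℤ) : ℝ)| +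
      Real.sqrt (((g.1.trace : ℤ) : ℝ) ^ 2 - 4) * Real.sqrt (((h.1.trace : ℤ) : ℝ) ^ 2 - 4)) *
      (rho g * rho h) := by
  have e1 : Real.sqrt (((g.1.trace : ℤ) : ℝ) ^ 2 - 4) = 2 * rho g - |((g.1.trace : ℤ) : ℝ)| := by
    unfold rho; ring
  have e2 : Real.sqrt (((h.1.trace : ℤ) : ℝ) ^ 2 - 4) = 2 * rho h - |((h.1.trace : ℤ) : ℝ)| := by
    unfold rho; ring
  have h1 := rho_eq hg
  have h2 := rho_eq hh
  rw [e1, e2]
  have r1 : 0 < rho g := rho_pos hg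
  have r2 : 0 < rho h := rho_pos hh
  generalize rho g = x at *
  generalize rho h = y at *
  generalize |((g.1.trace : ℤ) : ℝ)| = t at *
  generalize |((h.1.trace : ℤ) : ℝ)| = s at *
  have ht : t * x = x ^ 2 + 1 := h1.symm
  have hs : s * y = y ^ 2 + 1 := h2.symm
  have : (t * s + (2 * x - t) * (2 * y - s)) * (x * y) =
    2 * (t * x) * (s * y) + 4 * x ^ 2 * y ^ 2 - 2 * x ^ 2 * (s * y) - 2 * (t * x) * y ^ 2 := by ring
  rw [this, ht, hs]; ring

theorem rho_mul_lt {g h x : SLZ} (hg : 2 ≤ |g.1.trace|) (hh : 2 ≤ |h.1.trace|)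
    (hx : 2 ≤ |x.1.trace|)
    (H : (2 * |x.1.trace| - |g.1.trace| * |h.1.trace|) ^ 2 <
      (g.1.trace ^ 2 - 4) * (h.1.trace ^ 2 - 4)) : rho x < rho g * rho h := by
  apply rho_lt hx (one_le_mul_of_one_le_of_one_le (rho_ge hg) (rho_ge hh))
  have h1 := rho_mul_aux hg hh
  have hp : 0 < rho g * rho h := mul_pos (rho_pos hg) (rho_pos hh)
  have h2 : 2 * |((x.1.trace : ℤ) : ℝ)| < |((g.1.trace : ℤ) : ℝ)| * |((h.1.trace : ℤ) : ℝ)| +
      Real.sqrt (((g.1.trace : ℤ) : ℝ) ^ 2 - 4) * Real.sqrt (((h.1.trace : ℤ) : ℝ) ^ 2 - 4) := by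
    have h3 : (2 * |((x.1.trace : ℤ) : ℝ)| - |((g.1.trace : ℤ) : ℝ)| * |((h.1.trace : ℤ) : ℝ)|) ^ 2 <
      (((g.1.trace : ℤ) : ℝ) ^ 2 - 4) * (((h.1.trace : ℤ) : ℝ) ^ 2 - 4) := by exact_mod_cast H
    rw [← sqrt_sq4 hg, ← sqrt_sq4 hh, ← mul_pow] at h3
    have h4 := abs_lt_of_sq_lt_sq h3 (mul_nonneg (Real.sqrt_nonneg _) (Real.sqrt_nonneg _))
    have h5 := (abs_lt.1 h4).2
    linarith
  nlinarith

end Pool.Agent.Lib.MP_eee7a8_ag.TB.C33
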